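import Pool.Agent.H75.GS.Targets

/-!
# An oracle relative to which the errors of a quantum heuristic for PH are hard to find: targets of the
assembly
-/

set_option autoImplicit false

namespace Pool.Agent.H75.GS

open Finset Filter Pool.Agent.H6.NB Pool.Agent.H70.OQ

open Classical in
/-- SEL: the choice of the row. -/
def T_SEL : Prop := ∀ (X ι J : Type) [Fintype ι] [Fintype J] (N0 : Finset X)
  (OT : List Bool → Bool) (Ox : X → List Bool → Bool) (ps : X → List Bool) (Q : J → X → QAlg)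
  (S : ι → Sampler) (E : X → Set (List Bool)) (LQ LS M : ℕ) (τ τS η : ℝ),
  Function.Injective ps →
  (∀ j x, (Q j x).Short LQ ∧ (Fintype.card J : ℝ) * (Q j x).T ≤ τ) →
  (∀ x ∈ N0, ∀ w : List Bool, w.length ≤ LQ → w ≠ ps x → Ox x w = OT w) →
  (∀ j, ∀ x ∈ N0, qm (Q j x) OT (ps x) ≤ 8 * τ / N0.card) →
  (∀ i, (S i).alg.Short LS ∧ ((S i).alg.T : ℝ) ^ 2 ≤ τS) →
  (∀ w : List Bool, w.length ≤ LS → (N0.filter fun x => Ox x w ≠ OT w).card ≤ M) →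
  (∀ s, (N0.filter fun x => s ∈ E x).card ≤ M) →
  8 * Fintype.card J < N0.card → 4608 * τ ^ 2 < N0.card → 0 < τ → 0 < η →
  8 * (Fintype.card ι * (2 * M + 8 * τS * M)) ≤ η * N0.card →
  ∃ x ∈ N0, (∀ j, ∃ x', (x' = x ∧ (Q j x').prob (Ox x) < 2 / 3) ∨
    (x' ≠ x ∧ x' ∈ N0 ∧ 1 / 3 < (Q j x').prob (Ox x))) ∧ ∀ i, (S i).hit (Ox x) (E x) ≤ η

/-- STG: one stage of the construction. -/
def T_STG : Prop := ∀ (K c C c' a0 b q : ℕ) (ε : ℝ), 0 < ε → 1 ≤ a0 → c < 2 ^ a0 →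
  ∀ prog, Smallk K prog → ∃ a : ℕ, ∀ᶠ n : ℕ in atTop,
  ∀ (J : Type) [Fintype J] (Q : J → List Bool → QAlg), Fintype.card J ≤ q →
  (∀ j, ∀ x : List Bool, x.length = n → (Q j x).Short (n ^ c + c) ∧
    ((Q j x).T : ℝ) ≤ C * 2 ^ ((1 / 2 - ε) * n)) →
  ∀ (ι : Type) [Fintype ι] (S : ι → Sampler), Fintype.card ι ≤ n ^ b →
  (∀ i, (S i).alg.Short ((n ^ 2 ^ a0) ^ c' + c') ∧ (S i).alg.T ^ 8 ≤ 2 ^ n) →
  ∀ A σ₀, LocA A → (∀ (s : List Bool) O, n ≤ s.length → (A s O ↔ acck K prog s O)) →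
  (∀ s, Dec σ₀ s) → Uniq σ₀ → ∃ (u : List Bool) (σ : List Bool → Bool), u.length = 3 * n + 1 ∧
    (∀ w : List Bool, w.length < n → σ w = σ₀ w) ∧ (∀ s, Dec σ s) ∧ Uniq σ ∧
    ∀ A' σ' O, Agr (n ^ 2 ^ a + 1) (mskA (n ^ 2 ^ a0) u A) A' σ σ' → Bldg A' σ' O →
      (∀ j, ∃ x : List Bool, x.length = n ∧ ¬ Correct (Q j x) O (wlang O) x) ∧
      ∀ i, (S i).hit O {s | s.length < n ^ 2 ^ a0 ∧ ¬ (A s (msk u O) ↔ A s O)} ≤
        1 / 2 ^ (n / 4)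

/-- The length of the stage `r`. -/
def Ln (r : ℕ) : ℕ := 2 ^ 2 ^ 2 ^ r

/-- The conclusion of the stage `r` for the first `c` machines, algorithms and samplers; `n` is the
length of the stage, `l'` the length of the next stage. -/
def Cnc {κ : ℕ → ℕ} (V : ∀ i, Machine (κ i)) (Q : ℕ → List Bool → QAlg) (S : ℕ → ℕ → Sampler)
    (g : ℕ → ℕ → ℕ) (K : ℕ) (prog : List Bool → List (List Bool) → DT) (c n l' r : ℕ)
    (A : List Bool → (List Bool → Bool) → Prop) (σ : List Bool → Bool) : Prop :=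
  ∃ (H : ℕ) (u : List Bool), (∀ (s : List Bool) O, n ≤ s.length → s.length < l' →
      (A s O ↔ acck K prog s (if s.length < H then msk u O else O))) ∧
    ∀ A' σ' O, Agr l' A A' σ σ' → Bldg A' σ' O →
      (∀ i < c, ∃ x : List Bool, x.length = n ∧ ¬ Correct (Q i x) O (wlang O) x) ∧
      ∀ i < c, ∀ j < c, ∀ m < H, (S j m).hit O {y | n ≤ (inst (V i).c i y).length ∧
        (inst (V i).c i y).length < H ∧ ¬ (acck K prog (inst (V i).c i y) (msk u O) ↔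
          acck K prog (inst (V i).c i y) O)} ≤ 1 / 2 ^ (g j m + r + 1)

/-- The stage `r` is possible. -/
def Pos {κ : ℕ → ℕ} (V : ∀ i, Machine (κ i)) (Q : ℕ → List Bool → QAlg) (S : ℕ → ℕ → Sampler)
    (g : ℕ → ℕ → ℕ) (K : ℕ) (prog : List Bool → List (List Bool) → DT) (c r : ℕ) : Prop :=
  ∀ A σ, LocA A → (∀ s, Dec σ s) → Uniq σ → ∃ A' σ', LocA A' ∧ (∀ s, Dec σ' s) ∧ Uniq σ' ∧
    Agr (Ln r) A A' σ σ' ∧ Cnc V Q S g K prog c (Ln r) (Ln (r + 1)) r A' σ'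

/-- The hypotheses on the algorithms and the samplers. -/
def Hyp (Q : ℕ → List Bool → QAlg) (S : ℕ → ℕ → Sampler) (g : ℕ → ℕ → ℕ) : Prop :=
  (∀ i, ∃ (c C : ℕ) (ε : ℝ), 0 < ε ∧ ∀ x, (Q i x).Short (x.length ^ c + c) ∧
    ((Q i x).T : ℝ) ≤ C * 2 ^ ((1 / 2 - ε) * x.length)) ∧
  (∀ j, (∃ c, ∀ m, (S j m).alg.Short (m ^ c + c) ∧ (S j m).alg.T ≤ 2 ^ g j m) ∧
    ∀ a : ℕ, ∀ᶠ m in atTop, g j m ^ a ≤ m)

/-- STR: the stage `r` is possible if `r` is large. -/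
def T_STR : Prop := ∀ (κ : ℕ → ℕ) (V : ∀ i, Machine (κ i)) (Q : ℕ → List Bool → QAlg)
  (S : ℕ → ℕ → Sampler) (g : ℕ → ℕ → ℕ) (K : ℕ) (prog : List Bool → List (List Bool) → DT)
  (c : ℕ), Smallk K prog → Hyp Q S g → ∀ᶠ r in atTop, Pos V Q S g K prog c r

/-- DUM: the stage is always possible if there are no algorithms. -/
def T_DUM : Prop := ∀ (κ : ℕ → ℕ) (V : ∀ i, Machine (κ i)) (Q : ℕ → List Bool → QAlg)
  (S : ℕ → ℕ → Sampler) (g : ℕ → ℕ → ℕ) (K : ℕ) (prog : List Bool → List (List Bool) → DT),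
  Smallk K prog → ∀ r, Pos V Q S g K prog 0 r

/-- DGL: a diagonal sequence. -/
def T_DGL : Prop := ∀ N : ℕ → ℕ → Prop, (∀ j, ∀ᶠ r in atTop, N j r) →
  ∃ c : ℕ → ℕ, Tendsto c atTop atTop ∧ ∀ r, ∀ j < c r, N j r

/-- LMX: the limit of the stages. -/
def T_LMX : Prop := ∀ (l : ℕ → ℕ) (Con : ℕ → (List Bool → (List Bool → Bool) → Prop) →
    (List Bool → Bool) → Prop), StrictMono l →
  (∀ r A A' σ σ', Agr (l (r + 1)) A A' σ σ' → Con r A σ → Con r A' σ') →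
  (∀ r A σ, LocA A → (∀ s, Dec σ s) → Uniq σ → ∃ A' σ', LocA A' ∧ (∀ s, Dec σ' s) ∧ Uniq σ' ∧
    Agr (l r) A A' σ σ' ∧ Con r A' σ') →
  ∃ (A : List Bool → (List Bool → Bool) → Prop) (σ : List Bool → Bool), LocA A ∧
    (∀ s, Dec σ s) ∧ Uniq σ ∧ ∀ r, Con r A σ

/-- ERL: the errors of the quantum algorithm in the limit. -/
def T_ERL : Prop := ∀ (κ : ℕ → ℕ) (V : ∀ i, Machine (κ i)) (Q : ℕ → List Bool → QAlg)
  (S : ℕ → ℕ → Sampler) (g : ℕ → ℕ → ℕ) (K : ℕ → ℕ)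
  (prog : ℕ → List Bool → List (List Bool) → DT) (c : ℕ → ℕ)
  (A : List Bool → (List Bool → Bool) → Prop) (σ O : List Bool → Bool), Tendsto c atTop atTop →
  (∀ r, ∀ i < c r, ∀ x O, (x ∈ (V i).lang O ↔ acck (K r) (prog r) (inst (V i).c i x) O)) →
  Bldg A σ O → (∀ s, Dec σ s) →
  (∀ r, Cnc V Q S g (K r) (prog r) (c r) (Ln r) (Ln (r + 1)) r A σ) →
  ∀ i j, ∀ᶠ m in atTop, (S j m).hit O {x | x ∈ Err (V i) i O ∧ m ≤ x.length} ≤ 1 / 2 ^ g j m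

/-- FIN: the theorem. -/
def T_FIN : Prop := Main

end Pool.Agent.H75.GS
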