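import Pool.Agent.H75.GS.Stmt2
import Pool.Agent.H75.GS.Targets2

/-!
# Samplers which may use the polynomial hierarchy: targets
-/

set_option autoImplicit false

namespace Pool.Agent.H75.GS

open Finset Filter Pool.Agent.H6.NB Pool.Agent.H70.OQ

open Classical in
/-- SLE: the choice of the row; each sampler has its own oracle. -/
def T_SLE : Prop := ∀ (X ι J : Type) [Fintype ι] [Fintype J] (N0 : Finset X)
  (OT : List Bool → Bool) (Ox : X → List Bool → Bool) (ET : ι → List Bool → Bool)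
  (Ex : ι → X → List Bool → Bool) (ps : X → List Bool) (Q : J → X → QAlg)
  (S : ι → Sampler) (E : X → Set (List Bool)) (LQ LS M : ℕ) (τ τS η : ℝ),
  Function.Injective ps →
  (∀ j x, (Q j x).Short LQ ∧ (Fintype.card J : ℝ) * (Q j x).T ≤ τ) →
  (∀ x ∈ N0, ∀ w : List Bool, w.length ≤ LQ → w ≠ ps x → Ox x w = OT w) →
  (∀ j, ∀ x ∈ N0, qm (Q j x) OT (ps x) ≤ 8 * τ / N0.card) →
  (∀ i, (S i).alg.Short LS ∧ ((S i).alg.T : ℝ) ^ 2 ≤ τS) →
  (∀ i, ∀ w : List Bool, w.length ≤ LS → (N0.filter fun x => Ex i x w ≠ ET i w).card ≤ M) →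
  (∀ s, (N0.filter fun x => s ∈ E x).card ≤ M) →
  8 * Fintype.card J < N0.card → 4608 * τ ^ 2 < N0.card → 0 < τ → 0 < η →
  8 * (Fintype.card ι * (2 * M + 8 * τS * M)) ≤ η * N0.card →
  ∃ x ∈ N0, (∀ j, ∃ x', (x' = x ∧ (Q j x').prob (Ox x) < 2 / 3) ∨
    (x' ≠ x ∧ x' ∈ N0 ∧ 1 / 3 < (Q j x').prob (Ox x))) ∧ ∀ i, (S i).hit (Ex i x) (E x) ≤ η

open Classical in
/-- CHT: only few rows matter for the true answers. -/
def T_CHT : Prop := ∀ (n a a0 M : ℕ) (A : List Bool → (List Bool → Bool) → Prop)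
  (σ₀ O₀ OT : List Bool → Bool) (Ox : Xn n → List Bool → Bool) (p : Wn n)
  (κ : Om n (2 ^ a) → Bool) (P : Blk (fun s : Om n (2 ^ a) => ns s.1) fun s => qs s.1)
  (D : Om n (2 ^ a) → (Cg 1 n (2 ^ a) → Bool) → Bool) (S t d : ℕ) (few : Wn n → Prop)
  (k : ℕ → ℕ),
  Wor n a a0 A σ₀ O₀ OT Ox p κ P → Syg D (fun s => lv n s.1) S t d a → 1 ≤ S → 1 ≤ t →
  (∀ (s : Om n (2 ^ a)) T e P, (A s.1 (fun w => vlG T e P (clg 1 n (2 ^ a) O₀ w)) ↔
    accG D P s T e = true)) →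
  ¬ Evt few (TT n) (UU n) D (fun s => lv n s.1) a0 a k p (elG (accG D P) (TT n p) κ a) P →
  1 ≤ M → (∀ j < a, k j ≤ M) →
  ∀ s : List Bool, s.length < n ^ 2 ^ a →
    ((univ.filter fun x => p.2 x = false).filter fun x => ¬ (A s (Ox x) ↔ A s OT)).card ≤ M

open Classical in
/-- The oracle `O` together with the answers to the instances in `Y`. -/
noncomputable def exo (Y : Set (List Bool)) (K : ℕ) (prog : List Bool → List (List Bool) → DT)
    (O : List Bool → Bool) : List Bool → Bool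
  | [] => false
  | false :: w => O w
  | true :: s => decide (s ∈ Y ∧ acck K prog s O)

/-- STE: one stage of the construction. -/
def T_STE : Prop := ∀ (K c C c' a0 b q : ℕ) (ε : ℝ), 0 < ε → 1 ≤ a0 → c < 2 ^ a0 →
  ∀ prog, Smallk K prog → ∃ a : ℕ, ∀ᶠ n : ℕ in atTop,
  ∀ (J : Type) [Fintype J] (Q : J → List Bool → QAlg), Fintype.card J ≤ q →
  (∀ j, ∀ x : List Bool, x.length = n → (Q j x).Short (n ^ c + c) ∧
    ((Q j x).T : ℝ) ≤ C * 2 ^ ((1 / 2 - ε) * n)) →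
  ∀ (ι : Type) [Fintype ι] (S : ι → Sampler) (Y : ι → Set (List Bool)), Fintype.card ι ≤ n ^ b →
  (∀ i, (S i).alg.Short ((n ^ 2 ^ a0) ^ c' + c') ∧ (S i).alg.T ^ 8 ≤ 2 ^ n) →
  ∀ A σ₀, LocA A → (∀ (s : List Bool) O, n ≤ s.length → (A s O ↔ acck K prog s O)) →
  (∀ s, Dec σ₀ s) → Uniq σ₀ → ∃ (u : List Bool) (σ : List Bool → Bool), u.length = 3 * n + 1 ∧
    (∀ w : List Bool, w.length < n → σ w = σ₀ w) ∧ (∀ s, Dec σ s) ∧ Uniq σ ∧
    ∀ A' σ' O, Agr (n ^ 2 ^ a + 1) (mskA (n ^ 2 ^ a0) u A) A' σ σ' → Bldg A' σ' O →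
      (∀ j, ∃ x : List Bool, x.length = n ∧ ¬ Correct (Q j x) O (wlang O) x) ∧
      ∀ i, (S i).hit (exo (Y i) K prog O)
        {s | s.length < n ^ 2 ^ a0 ∧ ¬ (A s (msk u O) ↔ A s O)} ≤ 1 / 2 ^ (n / 4)

/-- The conclusion of the stage `r` for the first `c` machines, algorithms and samplers; `n` is the
length of the stage, `l'` the length of the next stage. -/
def Cne {κ : ℕ → ℕ} (V : ∀ i, Machine (κ i)) (Q : ℕ → List Bool → QAlg) (S : ℕ → ℕ → Sampler)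
    (g : ℕ → ℕ → ℕ) (K : ℕ) (prog : List Bool → List (List Bool) → DT) (c n l' r : ℕ)
    (A : List Bool → (List Bool → Bool) → Prop) (σ : List Bool → Bool) : Prop :=
  ∃ (H : ℕ) (u : List Bool), (∀ (s : List Bool) O, n ≤ s.length → s.length < l' →
      (A s O ↔ acck K prog s (if s.length < H then msk u O else O))) ∧
    ∀ A' σ' O, Agr l' A A' σ σ' → Bldg A' σ' O →
      (∀ i < c, ∃ x : List Bool, x.length = n ∧ ¬ Correct (Q i x) O (wlang O) x) ∧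
      ∀ i < c, ∀ j < c, ∀ d < c, ∀ m < H, (S j m).hit (ext V d O)
        {y | n ≤ (inst (V i).c i y).length ∧ (inst (V i).c i y).length < H ∧
          ¬ (acck K prog (inst (V i).c i y) (msk u O) ↔ acck K prog (inst (V i).c i y) O)} ≤
        1 / 2 ^ (g j m + r + 1)

/-- The stage `r` is possible. -/
def Poe {κ : ℕ → ℕ} (V : ∀ i, Machine (κ i)) (Q : ℕ → List Bool → QAlg) (S : ℕ → ℕ → Sampler)
    (g : ℕ → ℕ → ℕ) (K : ℕ) (prog : List Bool → List (List Bool) → DT) (c r : ℕ) : Prop :=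
  ∀ A σ, LocA A → (∀ s, Dec σ s) → Uniq σ → ∃ A' σ', LocA A' ∧ (∀ s, Dec σ' s) ∧ Uniq σ' ∧
    Agr (Ln r) A A' σ σ' ∧ Cne V Q S g K prog c (Ln r) (Ln (r + 1)) r A' σ'

/-- SRE: the stage `r` is possible if `r` is large. -/
def T_SRE : Prop := ∀ (κ : ℕ → ℕ) (V : ∀ i, Machine (κ i)) (Q : ℕ → List Bool → QAlg)
  (S : ℕ → ℕ → Sampler) (g : ℕ → ℕ → ℕ) (K : ℕ) (prog : List Bool → List (List Bool) → DT)
  (c : ℕ), Smallk K prog →
  (∀ i < c, ∀ x O, (x ∈ (V i).lang O ↔ acck K prog (inst (V i).c i x) O)) →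
  Hyp Q S g → ∀ᶠ r in atTop, Poe V Q S g K prog c r

/-- DUE: the stage is always possible if there are no algorithms. -/
def T_DUE : Prop := ∀ (κ : ℕ → ℕ) (V : ∀ i, Machine (κ i)) (Q : ℕ → List Bool → QAlg)
  (S : ℕ → ℕ → Sampler) (g : ℕ → ℕ → ℕ) (K : ℕ) (prog : List Bool → List (List Bool) → DT),
  Smallk K prog → ∀ r, Poe V Q S g K prog 0 r

/-- ERE: the errors of the quantum algorithm in the limit. -/
def T_ERE : Prop := ∀ (κ : ℕ → ℕ) (V : ∀ i, Machine (κ i)) (Q : ℕ → List Bool → QAlg)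
  (S : ℕ → ℕ → Sampler) (g : ℕ → ℕ → ℕ) (K : ℕ → ℕ)
  (prog : ℕ → List Bool → List (List Bool) → DT) (c : ℕ → ℕ)
  (A : List Bool → (List Bool → Bool) → Prop) (σ O : List Bool → Bool), Tendsto c atTop atTop →
  (∀ r, ∀ i < c r, ∀ x O, (x ∈ (V i).lang O ↔ acck (K r) (prog r) (inst (V i).c i x) O)) →
  Bldg A σ O → (∀ s, Dec σ s) →
  (∀ r, Cne V Q S g (K r) (prog r) (c r) (Ln r) (Ln (r + 1)) r A σ) →
  ∀ i j d, ∀ᶠ m in atTop,
    (S j m).hit (ext V d O) {x | x ∈ Err (V i) i O ∧ m ≤ x.length} ≤ 1 / 2 ^ g j m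

end Pool.Agent.H75.GS
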