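import Pool.Agent.H70.OQ.Stmt

/-!
# An oracle relative to which the errors of a quantum heuristic for PH are hard to find: definitions

The quantum query algorithms `QAlg`, the strings `inst c i x` and the quantum algorithm `yesProb` are
those of `Pool.Agent.H6.NB.Stmt`, the machines `Machine k` of the level `k` of the polynomial hierarchy
those of `Pool.Agent.H70.OQ.Stmt`.
-/

set_option autoImplicit false

namespace Pool.Agent.H75.GS

open Pool.Agent.H6.NB Pool.Agent.H70.OQ

/-- `u` is a member iff it has a witness: a string `v` of length `2 |u|` such that the oracle contains the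
string `0 u v`. -/
def wlang (O : List Bool → Bool) : Set (List Bool) :=
  {u | ∃ v : List Bool, v.length = 2 * u.length ∧ O (false :: (u ++ v)) = true}

/-- No string has more than one witness. -/
def Uniq (O : List Bool → Bool) : Prop := ∀ u v v' : List Bool, v.length = 2 * u.length →
  v'.length = 2 * u.length → O (false :: (u ++ v)) = true → O (false :: (u ++ v')) = true → v = v'

/-- A quantum sampler: a quantum query algorithm which measures in the computational basis at the end;
if the result is `z`, the output is the string `out z`. -/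
structure Sampler where
  /-- the algorithm (its accepting states play no role) -/
  alg : QAlg
  /-- the output -/
  out : alg.basis → List Bool

open Classical in
/-- The probability that the output of the sampler belongs to `E`. -/
noncomputable def Sampler.hit (S : Sampler) (O : List Bool → Bool) (E : Set (List Bool)) : ℝ :=
  ∑ z : S.alg.basis, if S.out z ∈ E then ‖S.alg.state O S.alg.T z‖ ^ 2 else 0

/-- The inputs on which the quantum algorithm `fun x => yesProb O (inst M.c i x)` for the machine `M`
(with number `i`) errs: it is wrong, or its error probability is larger than `1/3`. -/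
def Err {k : ℕ} (M : Machine k) (i : ℕ) (O : List Bool → Bool) : Set (List Bool) :=
  {x | ¬ ((x ∈ M.lang O → 2 / 3 ≤ yesProb O (inst M.c i x)) ∧
    (x ∉ M.lang O → yesProb O (inst M.c i x) ≤ 1 / 3))}

/-- The statement of the theorem. -/
def Main : Prop :=
  (∃ F : Machine 1, ∀ O, F.lang O = wlang O) ∧
  ∀ (κ : ℕ → ℕ) (V : ∀ i, Machine (κ i)) (Q : ℕ → List Bool → QAlg) (S : ℕ → ℕ → Sampler)
    (g : ℕ → ℕ → ℕ),
    (∀ i, ∃ (c C : ℕ) (ε : ℝ), 0 < ε ∧ ∀ x, (Q i x).Short (x.length ^ c + c) ∧
      ((Q i x).T : ℝ) ≤ C * 2 ^ ((1 / 2 - ε) * x.length)) →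
    (∀ j, (∃ c, ∀ m, (S j m).alg.Short (m ^ c + c) ∧ (S j m).alg.T ≤ 2 ^ g j m) ∧
      ∀ a : ℕ, ∀ᶠ m in Filter.atTop, g j m ^ a ≤ m) →
    ∃ O : List Bool → Bool, Uniq O ∧
      (∀ i, ∀ᶠ r in Filter.atTop, ∃ x, x.length = 2 ^ 2 ^ 2 ^ r ∧ ¬ Correct (Q i x) O (wlang O) x) ∧
      ∀ i j, ∀ᶠ m in Filter.atTop,
        (S j m).hit O {x | x ∈ Err (V i) i O ∧ m ≤ x.length} ≤ 1 / 2 ^ g j m

end Pool.Agent.H75.GS
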