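import Pool.Agent.H70.OQ.Basic
import Pool.Agent.H75.GS.Stmt

/-!
# An oracle relative to which the errors of a quantum heuristic for PH are hard to find: definitions for
the proof
-/

set_option autoImplicit false

namespace Pool.Agent.H75.GS

open Finset Pool.Agent.H6.NB Pool.Agent.H70.OQ

/-! ## Part A: quantum algorithms -/

/-- The total magnitude of the queries of the string `w`. -/
noncomputable def qm (Q : QAlg) (O : List Bool → Bool) (w : List Bool) : ℝ :=
  ∑ t ∈ range Q.T, ∑ z, ic (Q.query z = some w) * ‖Q.state O t z‖ ^ 2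

/-- The total magnitude of the queries of the strings where `O'` differs from `O`. -/
noncomputable def mg (Q : QAlg) (O O' : List Bool → Bool) : ℝ :=
  ∑ t ∈ range Q.T, ∑ z, ic (∃ w, Q.query z = some w ∧ O' w ≠ O w) * ‖Q.state O t z‖ ^ 2

/-- The square of the distance of the final states. -/
noncomputable def dst (Q : QAlg) (O O' : List Bool → Bool) : ℝ :=
  ∑ z, ‖Q.state O' Q.T z - Q.state O Q.T z‖ ^ 2

/-! ## Part B: the tables -/

/-- The table with the hidden children `h`; the rows with `b x = true` are the members. -/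
def tb {X Z : Type} [DecidableEq Z] (h : X → Z) (b : X → Bool) : X × Z → Bool :=
  fun v => b v.1 && decide (v.2 = h v.1)

/-- The table of a configuration. -/
def tT {X Z : Type} [DecidableEq Z] (p : (X → Z) × (X → Bool)) : X × Z → Bool := tb p.1 p.2

/-- The table of a configuration where the row `x` becomes a member. -/
def tU {X Z : Type} [DecidableEq X] [DecidableEq Z] (p : (X → Z) × (X → Bool)) (x : X) :
    X × Z → Bool := tb p.1 fun x' => p.2 x' || decide (x' = x)

/-- There are few non-members. -/
def Few {X Z : Type} [Fintype X] (p : (X → Z) × (X → Bool)) : Prop :=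
  4 * (univ.filter fun x => p.2 x = false).card < Fintype.card X

/-! ## Part C: frozen and aware instances -/

section

variable {W X B Ω : Type} {nn qb : Ω → ℕ}

/-- Replace the values of the keys by `e`. -/
def kst (e : Ω → Bool) (y : PosG B Ω nn qb → Bool) : PosG B Ω nn qb → Bool
  | .cst b => y (.cst b)
  | .bas a => y (.bas a)
  | .key s => e s
  | .blk s i v => y (.blk s i v)

/-- The frozen instances (level below `a0`), the encrypted answers being fixed. -/
def Dfr (D : Ω → (PosG B Ω nn qb → Bool) → Bool) (lev : Ω → ℕ) (a0 : ℕ) (e : Ω → Bool) :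
    Ω → (PosG B Ω nn qb → Bool) → Bool := fun s y => decide (lev s < a0) && D s (kst e y)

/-- The aware instances (level at least `a0`). -/
def Daw (D : Ω → (PosG B Ω nn qb → Bool) → Bool) (lev : Ω → ℕ) (a0 : ℕ) :
    Ω → (PosG B Ω nn qb → Bool) → Bool := fun s y => !decide (lev s < a0) && D s y

/-- The bad event: few non-members, a frozen instance is sensitive, or an aware instance is
sensitive. -/
def Evt [Fintype X] (few : W → Prop) (T : W → B → Bool) (U : W → X → B → Bool)
    (D : Ω → (PosG B Ω nn qb → Bool) → Bool) (lev : Ω → ℕ) (a0 h : ℕ) (k : ℕ → ℕ) (p : W)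
    (e : Ω → Bool) (P : Blk nn qb) : Prop :=
  few p ∨ ¬ TyG (accG (Dfr D lev a0 e) P) lev h (fun _ => k 0) h (T p) (U p) e ∨
    ¬ TyG (accG (Daw D lev a0) P) lev h k h (T p) (U p) e

end

/-! ## Part D: oracles -/

/-- Remove the string `u`. -/
def msk (u : List Bool) (O : List Bool → Bool) : List Bool → Bool :=
  fun w => if w = u then false else O w

/-- The instances of length less than `H` ignore the string `u`. -/
def mskA (H : ℕ) (u : List Bool) (A : List Bool → (List Bool → Bool) → Prop) :
    List Bool → (List Bool → Bool) → Prop :=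
  fun s O => if s.length < H then A s (msk u O) else A s O

/-- The pairs `(A, σ)` and `(A', σ')` agree below the length `l`. -/
def Agr (l : ℕ) (A A' : List Bool → (List Bool → Bool) → Prop) (σ σ' : List Bool → Bool) : Prop :=
  (∀ s : List Bool, s.length < l → A s = A' s) ∧ ∀ w : List Bool, w.length < l → σ w = σ' w

/-- The rows of the stage `n`. -/
abbrev Xn (n : ℕ) : Type := Fin n → Bool

/-- The configurations of the stage `n`. -/
abbrev Wn (n : ℕ) : Type := (Xn n → Ys n 0) × (Xn n → Bool)

/-- The table of a configuration. -/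
def TT (n : ℕ) (p : Wn n) : Nn n 1 → Bool := tT p

/-- The table of a configuration where the row `x` becomes a member. -/
def UU (n : ℕ) (p : Wn n) (x : Xn n) : Nn n 1 → Bool := tU p x

/-- The position of the entry `(x, y)` of the table. -/
def pst (n : ℕ) (x : Xn n) (y : Ys n 0) : List Bool := false :: (List.ofFn x ++ List.ofFn y)

/-- The worlds of the stage: `OT` for the configuration `p`, and `Ox x` for every row `x`, where the
instances of length less than `n ^ 2 ^ a0` ignore the string `pst n x (p.1 x)`. -/
structure Wor (n a a0 : ℕ) (A : List Bool → (List Bool → Bool) → Prop)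
    (σ₀ O₀ OT : List Bool → Bool) (Ox : Xn n → List Bool → Bool) (p : Wn n)
    (κ : Om n (2 ^ a) → Bool) (P : Blk (fun s : Om n (2 ^ a) => ns s.1) fun s => qs s.1) : Prop where
  n2 : 2 ≤ n
  a1 : 1 ≤ a0
  aa : a0 < a
  ln : 3 * n + 1 ≤ n ^ 2 ^ a0
  loc : LocA A
  b0 : Bldg A σ₀ O₀
  bT : Bldg A (sdg 1 n (2 ^ a) σ₀ (TT n p) κ P) OT
  bx : ∀ x, Bldg (mskA (n ^ 2 ^ a0) (pst n x (p.1 x)) A) (sdg 1 n (2 ^ a) σ₀ (UU n p x) κ P) (Ox x)

end Pool.Agent.H75.GS
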