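import Pool.Agent.H70.OQ.Targets
import Pool.Agent.H75.GS.Defs

/-!
# An oracle relative to which the errors of a quantum heuristic for PH are hard to find: module targets
-/

set_option autoImplicit false

namespace Pool.Agent.H75.GS

open Finset Filter Pool.Agent.H6.NB Pool.Agent.H70.OQ

/-! ## Part A: machines -/

/-- WLM: the language `wlang` is in the first level. -/
def T_WLM : Prop := ∃ F : Machine 1, ∀ O, F.lang O = wlang O

/-- UNX: a universal machine for the first machines. -/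
def T_UNX : Prop := ∀ (κ : ℕ → ℕ) (V : ∀ i, Machine (κ i)) (r : ℕ), ∃ (K : ℕ)
  (prog : List Bool → List (List Bool) → DT), Smallk K prog ∧
  ∀ i ≤ r, ∀ x O, (x ∈ (V i).lang O ↔ acck K prog (inst (V i).c i x) O)

/-! ## Part B: quantum algorithms -/

/-- BBH: the hybrid argument. -/
def T_BBH : Prop := ∀ (Q : QAlg) (O O' : List Bool → Bool),
  0 ≤ mg Q O O' ∧ mg Q O O' ≤ Q.T ∧ dst Q O O' ≤ 4 * Q.T * mg Q O O' ∧
  |Q.prob O' - Q.prob O| ≤ 4 * √(Q.T * mg Q O O')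

open Classical in
/-- HTS: the probabilities of the outputs. -/
def T_HTS : Prop := ∀ (S : Sampler) (O O' : List Bool → Bool),
  (∀ E, S.hit O' E ≤ 2 * S.hit O E + 2 * dst S.alg O O') ∧
  (∀ E E', E ⊆ E' → S.hit O E ≤ S.hit O E') ∧
  (∀ (X : Type) (N0 : Finset X) (E : X → Set (List Bool)) (M : ℕ),
    (∀ s, (N0.filter fun x => s ∈ E x).card ≤ M) → ∑ x ∈ N0, S.hit O (E x) ≤ M)

open Classical in
/-- MGS: the average magnitude. -/
def T_MGS : Prop := ∀ (X : Type) (N0 : Finset X) (Q : QAlg) (O : List Bool → Bool)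
  (Ox : X → List Bool → Bool) (L M : ℕ), Q.Short L →
  (∀ w : List Bool, w.length ≤ L → (N0.filter fun x => Ox x w ≠ O w).card ≤ M) →
  ∑ x ∈ N0, mg Q O (Ox x) ≤ Q.T * M

/-- QMS: the total magnitude of the queries. -/
def T_QMS : Prop := ∀ (Q : QAlg) (O : List Bool → Bool), (∀ w, 0 ≤ qm Q O w) ∧
  ∀ s : Finset (List Bool), ∑ w ∈ s, qm Q O w ≤ Q.T

open Classical in
/-- HQM: the hidden children of the non-members are rarely queried. Here `F x O w` is the total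
magnitude of the queries of the string `w` by some algorithms with the input `x`. -/
def T_HQM : Prop := ∀ (X Z : Type) [Fintype X] [DecidableEq X] [Fintype Z] [DecidableEq Z]
  (b : X → Bool) (O : (X → Z) → List Bool → Bool) (ps : X → Z → List Bool)
  (F : X → (List Bool → Bool) → List Bool → ℝ) (τ : ℝ),
  (∀ h x z, b x = false → O (Function.update h x z) = O h) →
  (∀ x, Function.Injective (ps x)) → (∀ x O w, 0 ≤ F x O w) →
  (∀ x O (s : Finset (List Bool)), ∑ w ∈ s, F x O w ≤ τ) → 0 < τ →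
  Fintype.card X ^ 2 ≤ Fintype.card Z → 0 < Fintype.card X →
  ((univ.filter fun h : X → Z => ∃ x, b x = false ∧
    8 * τ / Fintype.card X < F x (O h) (ps x (h x))).card : ℝ) ≤
    1 / 8 * (Fintype.card Z : ℝ) ^ Fintype.card X

/-! ## Part C: the good configuration -/

/-- BSC: the base of the induction: a formula is sensitive to few rows. -/
def T_BSC : Prop := ∀ (X Z : Type) [Fintype X] [DecidableEq X] [Fintype Z] [DecidableEq Z]
  (S t d w r k k' : ℕ), 1 ≤ w → 1 ≤ k →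
  (2 * (w + (2 * w + 1) * (4 * k + r)) : ℝ) ≤ k' * qw w ^ (d + 2) →
  ∀ f : (X × Z → Bool) → Bool, Fm S t d f →
  ((univ.filter fun p : (X → Z) × (X → Bool) =>
    k' < (univ.filter fun x => f (tU p x) ≠ f (tT p)).card).card : ℝ) ≤
    2 / qw w ^ (d + 2) * (((Fintype.card X : ℝ) + 1) * ((S : ℝ) + 2 ^ t + 1) ^ (d + 2) *
      2 / 2 ^ w + 1 / 4 ^ r) * Fintype.card ((X → Z) × (X → Bool))

open Classical in
/-- FEW: there are rarely few non-members. -/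
def T_FEW : Prop := ∀ (X Z : Type) [Fintype X] [DecidableEq X] [Fintype Z],
  64 ≤ Fintype.card X →
  ((univ.filter fun p : (X → Z) × (X → Bool) => Few p).card : ℝ) ≤
    1 / 16 * Fintype.card ((X → Z) × (X → Bool))

/-- SYX: the frozen and the aware instances satisfy the hypotheses of the ideal world. -/
def T_SYX : Prop := ∀ (B Ω : Type) (nn qb : Ω → ℕ) (D : Ω → (PosG B Ω nn qb → Bool) → Bool)
  (lev : Ω → ℕ) (S t d h a0 : ℕ), 1 ≤ S → 1 ≤ t → Syg D lev S t d h →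
  (∀ e, Syg (Dfr D lev a0 e) lev S t d h) ∧ Syg (Daw D lev a0) lev S t d h

open Classical in
/-- CLE: the bad event is in the class, as a function of one copy. -/
def T_CLE : Prop := ∀ (W X B Ω : Type) [Fintype X] [DecidableEq X] [Fintype Ω] [DecidableEq Ω]
  (nn qb : Ω → ℕ) (few : W → Prop) (T : W → B → Bool) (U : W → X → B → Bool)
  (D : Ω → (PosG B Ω nn qb → Bool) → Bool) (lev : Ω → ℕ) (S t d h a0 S' M : ℕ) (k : ℕ → ℕ),
  Syg D lev S t d h → 1 ≤ S → 1 ≤ t → 1 ≤ h → 2 ≤ S' → S ≤ S' → 2 ^ t ≤ S' →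
  (∀ j, j < h → k j ≤ M) → M + 1 ≤ S' → Fintype.card Ω * Fintype.card X ^ (M + 1) ≤ S' →
  1 ≤ Fintype.card X → ∀ (p : W) (e : Ω → Bool) (P : Blk nn qb) (s : Ω) (i : Fin (nn s)),
    Cl (VV (qb s)) S' ((d + 5) * h + 3) fun q =>
      decide (Evt few T U D lev a0 h k p e (updC P s i q))

open Classical in
/-- FID: the bad event is rare in the ideal world. -/
def T_FID : Prop := ∀ (W X B Ω : Type) [Fintype W] [Fintype X] [DecidableEq X] [Fintype Ω]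
  [DecidableEq Ω] (nn qb : Ω → ℕ) (few : W → Prop) (T : W → B → Bool) (U : W → X → B → Bool)
  (D : Ω → (PosG B Ω nn qb → Bool) → Bool) (lev : Ω → ℕ) (S t d h a0 : ℕ) (w r k : ℕ → ℕ)
  (δ : ℕ → ℝ) (δm : ℝ), Syg D lev S t d h → Prm (Fintype.card X) S t d h w r k δ → 1 ≤ S → 1 ≤ h →
  (∀ f : (B → Bool) → Bool, Fm S t d f → ((univ.filter fun p : W =>
    k 0 < (univ.filter fun x => f (U p x) ≠ f (T p)).card).card : ℝ) ≤ δ 0 * Fintype.card W) →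
  (∀ j < h, δ j ≤ δm) → Fintype.card Ω * δm ≤ 1 / 16 →
  ((univ.filter fun p : W => few p).card : ℝ) ≤ 1 / 16 * Fintype.card W →
  ∀ P : Blk nn qb, ((univ.filter fun p : W × (Ω → Bool) =>
    Evt few T U D lev a0 h k p.1 p.2 P).card : ℝ) ≤ 1 / 4 * (Fintype.card W * 2 ^ Fintype.card Ω)

open Classical in
/-- GEX: there is a good configuration. -/
def T_GEX : Prop := ∀ (W B Ω : Type) [Fintype W] [Nonempty W] [Fintype Ω] [DecidableEq Ω]
  (nn qb : Ω → ℕ) (T : W → B → Bool) (D : Ω → (PosG B Ω nn qb → Bool) → Bool) (lev : Ω → ℕ)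
  (S t d h S' d' : ℕ) (Λ : ℝ) (F : W → (Ω → Bool) → Blk nn qb → Prop)
  (G : W → (Ω → Bool) → Blk nn qb → Prop), Syg D lev S t d h → (∀ s, 10 ≤ qb s) →
  (∀ s f, Cl (VV (qb s)) S' d' f → L12 (fun y => bi (f y)) ≤ Λ) →
  (∀ p e P s i, Cl (VV (qb s)) S' d' fun q => decide (F p e (updC P s i q))) →
  (∀ P, ((univ.filter fun p : W × (Ω → Bool) => F p.1 p.2 P).card : ℝ) ≤
    1 / 4 * (Fintype.card W * 2 ^ Fintype.card Ω)) →
  (∀ κ P, ((univ.filter fun p : W => G p κ P).card : ℝ) ≤ 1 / 8 * Fintype.card W) →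
  ∑ s, (nn s : ℝ) * ((Λ + 1) / √(2 ^ qb s)) ≤ 1 / 4 →
  ∑ s, (3 * (nn s : ℝ) ^ 2 / 2 ^ qb s + (1 - eps2 (qb s) / 4) ^ nn s) ≤ 1 / 4 →
  ∃ (p : W) (κ : Ω → Bool) (P : Blk nn qb),
    ¬ F p (elG (accG D P) (T p) κ h) P ∧ (∀ s, DecA (qb s) (nn s) (κ s) (P s)) ∧ ¬ G p κ P

/-! ## Part D: oracles -/

/-- MSK: facts on the removal of a string. -/
def T_MSK : Prop := ∀ (A : List Bool → (List Bool → Bool) → Prop), LocA A →
  (∀ H u, LocA (mskA H u A)) ∧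
  (∀ (s u : List Bool) O, s.length < u.length ^ 2 → (A s (msk u O) ↔ A s O)) ∧
  ∀ H u (s : List Bool) O, s.length < u.length ^ 2 → (mskA H u A s O ↔ A s O)

/-- BUX: short strings of the oracle depend only on short strings of the seed and on the answers to
short instances. -/
def T_BUX : Prop := ∀ (A A' : List Bool → (List Bool → Bool) → Prop)
  (σ σ' O O' : List Bool → Bool) (l : ℕ), LocA A →
  (∀ (s : List Bool) O, s.length < l → (A s O ↔ A' s O)) → Bldg A σ O → Bldg A' σ' O' →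
  (∀ w : List Bool, w.length ≤ l → σ w = σ' w) → ∀ w : List Bool, w.length ≤ l → O w = O' w

/-- LKX: the values of the oracle of the stage. -/
def T_LKX : Prop := ∀ (k : ℕ) (A A' : List Bool → (List Bool → Bool) → Prop) (n a : ℕ)
  (σ₀ O₀ O : List Bool → Bool) (T : Nn n k → Bool) (κ : Om n a → Bool)
  (P : Blk (fun s : Om n a => ns s.1) fun s => qs s.1), LocA A →
  (∀ (s : List Bool) O, s.length < n ^ 2 → (A' s O ↔ A s O)) → 2 ≤ n → Bldg A σ₀ O₀ →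
  Bldg A' (sdg k n a σ₀ T κ P) O → ∀ w, w.length ≤ n ^ a →
  O w = vlG T (fun s : Om n a => O (key s.1)) P (clg k n a O₀ w)

/-- FMX: the instances as formulas. -/
def T_FMX : Prop := ∀ (k K : ℕ) (prog : List Bool → List (List Bool) → DT) (n a t : ℕ)
  (o : List Bool → Bool), Smallk K prog → 2 ≤ n → n ^ 2 ^ a ≤ t ^ 2 →
  ∃ D : Om n (2 ^ a) → (Cg k n (2 ^ a) → Bool) → Bool,
    Syg D (fun s => lv n s.1) (2 ^ t) t K a ∧
    ∀ (s : Om n (2 ^ a)) T e P, (acck K prog s.1 (fun w => vlG T e P (clg k n (2 ^ a) o w)) ↔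
      accG D P s T e = true)

/-- WRF: the frozen part of the worlds. -/
def T_WRF : Prop := ∀ (n a a0 : ℕ) (A : List Bool → (List Bool → Bool) → Prop)
  (σ₀ O₀ OT : List Bool → Bool) (Ox : Xn n → List Bool → Bool) (p : Wn n)
  (κ : Om n (2 ^ a) → Bool) (P : Blk (fun s : Om n (2 ^ a) => ns s.1) fun s => qs s.1),
  Wor n a a0 A σ₀ O₀ OT Ox p κ P → ∀ x, p.2 x = false →
  Ox x (pst n x (p.1 x)) = true ∧
  (∀ w : List Bool, w.length ≤ n ^ 2 ^ a0 → msk (pst n x (p.1 x)) (Ox x) w = OT w) ∧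
  (∀ s : List Bool, s.length < n ^ 2 ^ a0 → Ox x (key s) = OT (key s)) ∧
  ∀ s : List Bool, s.length < n ^ 2 ^ a0 → (A s (msk (pst n x (p.1 x)) (Ox x)) ↔ A s OT)

/-- WRT: the configuration and the worlds. The instances are given by the formulas `D`. -/
def T_WRT : Prop := ∀ (n a a0 : ℕ) (A : List Bool → (List Bool → Bool) → Prop)
  (σ₀ O₀ OT : List Bool → Bool) (Ox : Xn n → List Bool → Bool) (p : Wn n)
  (κ : Om n (2 ^ a) → Bool) (P : Blk (fun s : Om n (2 ^ a) => ns s.1) fun s => qs s.1)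
  (D : Om n (2 ^ a) → (Cg 1 n (2 ^ a) → Bool) → Bool) (S t d : ℕ),
  Wor n a a0 A σ₀ O₀ OT Ox p κ P → Syg D (fun s => lv n s.1) S t d a → 1 ≤ S → 1 ≤ t →
  (∀ (s : Om n (2 ^ a)) T e P, (A s.1 (fun w => vlG T e P (clg 1 n (2 ^ a) O₀ w)) ↔
    accG D P s T e = true)) →
  (fun s : Om n (2 ^ a) => OT (key s.1)) = elG (accG D P) (TT n p) κ a ∧
  ∀ x, p.2 x = false → (fun s : Om n (2 ^ a) => Ox x (key s.1)) =
    exG (accG (Daw D (fun s => lv n s.1) a0) P) a (TT n p) (UU n p x)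
      (fun s : Om n (2 ^ a) => OT (key s.1))

open Classical in
/-- CHS: only few rows matter for short strings and for the answers to frozen instances. -/
def T_CHS : Prop := ∀ (n a a0 M : ℕ) (A : List Bool → (List Bool → Bool) → Prop)
  (σ₀ O₀ OT : List Bool → Bool) (Ox : Xn n → List Bool → Bool) (p : Wn n)
  (κ : Om n (2 ^ a) → Bool) (P : Blk (fun s : Om n (2 ^ a) => ns s.1) fun s => qs s.1)
  (D : Om n (2 ^ a) → (Cg 1 n (2 ^ a) → Bool) → Bool) (S t d : ℕ) (few : Wn n → Prop)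
  (k : ℕ → ℕ),
  Wor n a a0 A σ₀ O₀ OT Ox p κ P → Syg D (fun s => lv n s.1) S t d a → 1 ≤ S → 1 ≤ t →
  (∀ (s : Om n (2 ^ a)) T e P, (A s.1 (fun w => vlG T e P (clg 1 n (2 ^ a) O₀ w)) ↔
    accG D P s T e = true)) →
  ¬ Evt few (TT n) (UU n) D (fun s => lv n s.1) a0 a k p (elG (accG D P) (TT n p) κ a) P →
  1 ≤ M → (∀ j < a, k j ≤ M) →
  (∀ w : List Bool, w.length ≤ n ^ 2 ^ a →
    ((univ.filter fun x => p.2 x = false).filter fun x => Ox x w ≠ OT w).card ≤ M) ∧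
  ∀ s : List Bool, ((univ.filter fun x => p.2 x = false).filter fun x =>
    s ∈ {s : List Bool | s.length < n ^ 2 ^ a0 ∧
      ¬ (A s (msk (pst n x (p.1 x)) (Ox x)) ↔ A s (Ox x))}).card ≤ M

/-! ## Part E: parameters -/

/-- PRX: the parameters of the stage. -/
def T_PRX : Prop := ∀ (K c C c' a0 b : ℕ) (ε : ℝ), 0 < ε → 1 ≤ a0 → c < 2 ^ a0 →
  ∃ a : ℕ, a0 < a ∧ ∀ᶠ n : ℕ in atTop,
  ∃ (t S' M w' w0 r0 k0 : ℕ) (w r κ : ℕ → ℕ) (δ : ℕ → ℝ) (δm : ℝ), 8 ≤ n ∧ 1 ≤ t ∧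
  n ^ c + c ≤ n ^ 2 ^ a0 ∧ 3 * n + 1 ≤ n ^ 2 ^ a0 ∧ (n ^ 2 ^ a0) ^ c' + c' ≤ n ^ 2 ^ a ∧
  n ^ 2 ^ a ≤ t ^ 2 ∧ 1 ≤ w0 ∧ 1 ≤ k0 ∧
  (2 * (w0 + (2 * w0 + 1) * (4 * k0 + r0)) : ℝ) ≤ κ 0 * qw w0 ^ (K + 2) ∧
  2 / qw w0 ^ (K + 2) * (((2 : ℝ) ^ n + 1) * (2 ^ t + 2 ^ t + 1) ^ (K + 2) *
    2 / 2 ^ w0 + 1 / 4 ^ r0) ≤ δ 0 ∧
  Prm (2 ^ n) (2 ^ t) t K a w r κ δ ∧ (∀ j < a, δ j ≤ δm) ∧ (2 : ℝ) ^ n ^ 2 ^ a * δm ≤ 1 / 16 ∧
  2 ≤ S' ∧ 2 ^ t ≤ S' ∧ (∀ j < a, κ j ≤ M) ∧ 1 ≤ M ∧ M + 1 ≤ S' ∧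
  2 ^ n ^ 2 ^ a * (2 ^ n) ^ (M + 1) ≤ S' ∧ 1 ≤ w' ∧
  (∀ q : ℕ, q ≤ 10 * n ^ 2 ^ a + 100 →
    (128 * (w' : ℝ)) ^ (2 * ((K + 5) * a + 3)) * ((w' : ℝ) ^ 2 +
      (2 * 2 ^ q) ^ 2 * ((S' : ℝ) + 1) ^ ((K + 5) * a + 3) / 2 ^ w') + 1 ≤ 2 ^ n) ∧
  4608 * (C * 2 ^ ((1 / 2 - ε) * n)) ^ 2 < (2 : ℝ) ^ n / 4 ∧
  8 * ((n : ℝ) ^ b * (2 * M + 8 * 2 ^ (n / 4 + 1) * M)) ≤ 1 / 2 ^ (n / 4) * (2 ^ n / 4)

/-- GRW: the growth of the bound for the samplers. -/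
def T_GRW : Prop := ∀ g : ℕ → ℕ, (∀ a : ℕ, ∀ᶠ m in atTop, g m ^ a ≤ m) →
  ∀ a B : ℕ, ∀ᶠ n : ℕ in atTop, ∀ m < n ^ a, 8 * (g m + B) ≤ n

end Pool.Agent.H75.GS
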