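import Pool.Agent.H75.GS.Targets2

/-!
gsq_modules, FIN: the theorem
-/

set_option autoImplicit false

namespace Pool.Agent.H75.GS.FIN

open Finset Filter Pool.Agent.H6.NB Pool.Agent.H70.OQ Pool.Agent.H75.GS

theorem Ln_pos (r : ℕ) : 0 < Ln r := by unfold Ln; positivity

theorem Ln_mono : StrictMono Ln := by
  refine strictMono_nat_of_lt_succ fun r => ?_
  unfold Ln
  have h1 : 2 ^ r < 2 ^ (r + 1) := Nat.pow_lt_pow_right (by norm_num) (by omega)
  have h2 : 2 ^ 2 ^ r < 2 ^ 2 ^ (r + 1) := Nat.pow_lt_pow_right (by norm_num) h1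
  exact Nat.pow_lt_pow_right (by norm_num) h2

/-- The conclusion of a stage depends only on short strings. -/
theorem cnc_congr {κ : ℕ → ℕ} {V : ∀ i, Machine (κ i)} {Q : ℕ → List Bool → QAlg}
    {S : ℕ → ℕ → Sampler} {g : ℕ → ℕ → ℕ} {K : ℕ} {prog : List Bool → List (List Bool) → DT}
    {c n l' r : ℕ} {A B : List Bool → (List Bool → Bool) → Prop} {σ τ : List Bool → Bool}
    (h : Agr l' A B σ τ) (hc : Cnc V Q S g K prog c n l' r A σ) :
    Cnc V Q S g K prog c n l' r B τ := by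
  obtain ⟨H, u, h1, h2⟩ := hc
  refine ⟨H, u, fun s O hs hs' => ?_, fun A' σ' O hAgr hB => h2 A' σ' O ⟨fun s hs => ?_,
    fun w hw => ?_⟩ hB⟩
  · rw [← h1 s O hs hs', h.1 s hs']
  · rw [h.1 s hs, hAgr.1 s hs]
  · rw [h.2 w hw, hAgr.2 w hw]

theorem fin (hWLM : T_WLM) (hUNX : T_UNX) (hSTR : T_STR) (hDUM : T_DUM) (hDGL : T_DGL)
    (hLMX : T_LMX) (hERL : T_ERL) (hBLG : T_BLG) : T_FIN := by
  refine ⟨hWLM, ?_⟩
  intro κ V Q S g hQ hS
  have hyp : Hyp Q S g := ⟨hQ, hS⟩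
  choose K prog hsm hV using fun r => hUNX κ V r
  -- the stages for the first j + 1 objects
  obtain ⟨c, hc, hcN⟩ := hDGL (fun j r => Pos V Q S g (K j) (prog j) (j + 1) r)
    fun j => hSTR κ V Q S g (K j) (prog j) (j + 1) (hsm j) hyp
  have hpos : ∀ r, Pos V Q S g (K (c r - 1)) (prog (c r - 1)) (c r) r := by
    intro r
    rcases Nat.eq_zero_or_pos (c r) with h | h
    · rw [h]
      exact hDUM κ V Q S g _ _ (hsm _) r
    · have := hcN r (c r - 1) (by omega)
      simp only [Nat.sub_add_cancel h] at this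
      exact this
  obtain ⟨A, σ, hA, hDec, hU, hcon⟩ := hLMX Ln
    (fun r A σ => Cnc V Q S g (K (c r - 1)) (prog (c r - 1)) (c r) (Ln r) (Ln (r + 1)) r A σ)
    Ln_mono (fun r A A' σ σ' hAgr h => cnc_congr hAgr h) (fun r A σ h1 h2 h3 => hpos r A σ h1 h2 h3)
  obtain ⟨O, hO⟩ := hBLG A hA σ
  refine ⟨O, ?_, ?_, ?_⟩
  · intro u v v' hv hv' h1 h2
    have e : ∀ w, O (false :: w) = σ (false :: w) := by
      intro w
      rw [hO]
      simp [key]
    rw [e] at h1 h2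
    exact hU u v v' hv hv' h1 h2
  · intro i
    filter_upwards [hc.eventually_gt_atTop i] with r hr
    obtain ⟨H, u, -, h2⟩ := hcon r
    exact (h2 A σ O ⟨fun _ _ => rfl, fun _ _ => rfl⟩ hO).1 i hr
  · intro i j
    refine hERL κ V Q S g (fun r => K (c r - 1)) (fun r => prog (c r - 1)) c A σ O hc ?_ hO hDec
      hcon i j
    intro r i hi x O
    exact hV (c r - 1) i (by omega) x O

end Pool.Agent.H75.GS.FIN
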