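import Pool.Agent.H75.GS.STA

/-!
gsq_modules, STG: one stage of the construction
-/

set_option autoImplicit false

namespace Pool.Agent.H75.GS.STG

open Finset Filter Pool.Agent.H6.NB Pool.Agent.H70.OQ Pool.Agent.H75.GS Pool.Agent.H75.GS.STA

/-- The end of the stage: the row `x` is chosen. -/
theorem final (hPCG : T_PCG) (hCLH : T_CLH) (hNST : T_NST) (hCOD : T_COD) (hMSK : T_MSK)
    (hBUX : T_BUX) {n a a0 c c' : ℕ} {J ι : Type} {Q : J → List Bool → QAlg} {S : ι → Sampler}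
    {A : List Bool → (List Bool → Bool) → Prop} {σ₀ O₀ OT : List Bool → Bool}
    {Ox : Xn n → List Bool → Bool} {p : Wn n} {κ : Om n (2 ^ a) → Bool}
    {P : Blk (fun s : Om n (2 ^ a) => ns s.1) fun s => qs s.1}
    (hW : Wor n a a0 A σ₀ O₀ OT Ox p κ P) (hl1 : n ^ c + c ≤ n ^ 2 ^ a)
    (hl3 : (n ^ 2 ^ a0) ^ c' + c' ≤ n ^ 2 ^ a)
    (hQ : ∀ j, ∀ x : List Bool, x.length = n → (Q j x).Short (n ^ c + c))
    (hS : ∀ i, (S i).alg.Short ((n ^ 2 ^ a0) ^ c' + c')) (hDec : ∀ s, Dec σ₀ s) (hU : Uniq σ₀)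
    (hP : ∀ s : Om n (2 ^ a), DecA (qs s.1) (ns s.1) (κ s) (P s)) {η : ℝ} {x : Xn n}
    (hx1 : ∀ j, ∃ x', (x' = x ∧ (Q j (List.ofFn x')).prob (Ox x) < 2 / 3) ∨
      (x' ≠ x ∧ p.2 x' = false ∧ 1 / 3 < (Q j (List.ofFn x')).prob (Ox x)))
    (hx2 : ∀ i, (S i).hit (Ox x) {s : List Bool | s.length < n ^ 2 ^ a0 ∧
      ¬ (A s (msk (pst n x (p.1 x)) (Ox x)) ↔ A s (Ox x))} ≤ η) :
    ∃ (u : List Bool) (σ : List Bool → Bool), u.length = 3 * n + 1 ∧
    (∀ w : List Bool, w.length < n → σ w = σ₀ w) ∧ (∀ s, Dec σ s) ∧ Uniq σ ∧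
    ∀ A' σ' O, Agr (n ^ 2 ^ a + 1) (mskA (n ^ 2 ^ a0) u A) A' σ σ' → Bldg A' σ' O →
      (∀ j, ∃ x : List Bool, x.length = n ∧ ¬ Correct (Q j x) O (wlang O) x) ∧
      ∀ i, (S i).hit O {s | s.length < n ^ 2 ^ a0 ∧ ¬ (A s (msk u O) ↔ A s O)} ≤ η := by
  have hHN : n ^ 2 ^ a0 ≤ n ^ 2 ^ a := Nat.pow_le_pow_right (by have := hW.n2; omega)
    (Nat.pow_le_pow_right (by norm_num) hW.aa.le)
  refine ⟨pst n x (p.1 x), sdg 1 n (2 ^ a) σ₀ (UU n p x) κ P, pst_len n x _,
    fun w hw => SGG.short_eq hCLH hNST hCOD hW.n2 w hw, SGG.dec_all hCLH hCOD hDec hP,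
    uniq_sd hCLH hNST hU, ?_⟩
  intro A' σ' O hAgr hB
  have hO : ∀ w : List Bool, w.length ≤ n ^ 2 ^ a → Ox x w = O w :=
    hBUX _ A' _ σ' (Ox x) O (n ^ 2 ^ a) ((hMSK A hW.loc).1 _ _)
      (fun s O' hs => by rw [hAgr.1 s (by omega)]) (hW.bx x) hB (fun w hw => hAgr.2 w (by omega))
  constructor
  · intro j
    obtain ⟨x', hx'⟩ := hx1 j
    refine ⟨List.ofFn x', List.length_ofFn, fun hcor => ?_⟩
    have e1 : (Q j (List.ofFn x')).prob (Ox x) = (Q j (List.ofFn x')).prob O :=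
      prob_congr' hPCG (hQ j _ List.length_ofFn) hl1 hO
    have e2 : List.ofFn x' ∈ wlang O ↔ (p.2 x' = true ∨ x' = x) := by
      rw [← mem_wlang hCLH (hW.bx x) x']
      refine (wlang_congr fun w hw => hO w ?_).symm
      rw [List.length_ofFn] at hw
      have := hW.ln
      omega
    rcases hx' with ⟨h1, h2⟩ | ⟨h1, h2, h3⟩
    · have := hcor.1 (e2.2 (Or.inr h1))
      rw [← e1] at this
      linarith
    · have := hcor.2 (fun h => by
        rcases e2.1 h with h4 | h4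
        · rw [h2] at h4; exact absurd h4 (by simp)
        · exact h1 h4)
      rw [← e1] at this
      linarith
  · intro i
    have e1 : ∀ E, (S i).hit O E = (S i).hit (Ox x) E := fun E =>
      hit_congr (S i) O (Ox x) (fun z w hw => (hO w (((hS i) z w hw).trans hl3)).symm) E
    rw [e1]
    refine le_trans (le_of_eq ?_) (hx2 i)
    congr 1
    ext s
    simp only [Set.mem_ofPred_eq]
    refine and_congr_right fun hs => not_congr ?_
    have g1 : A s (msk (pst n x (p.1 x)) O) ↔ A s (msk (pst n x (p.1 x)) (Ox x)) := by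
      refine hW.loc s _ _ fun w hw => ?_
      have h4 : w.length ≤ w.length ^ 2 := Nat.le_self_pow (by norm_num) _
      unfold msk
      rw [hO w (by omega)]
    have g2 : A s O ↔ A s (Ox x) := by
      refine hW.loc s _ _ fun w hw => ?_
      have h4 : w.length ≤ w.length ^ 2 := Nat.le_self_pow (by norm_num) _
      exact (hO w (by omega)).symm
    rw [g1, g2]

theorem card_inst {α : Type} (s : Finset α) (p : α → Prop) (i1 i2 : DecidablePred p) :
    (@filter α p i1 s).card = (@filter α p i2 s).card := by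
  have : i1 = i2 := Subsingleton.elim _ _
  rw [this]

theorem tb_update {X Z : Type} [DecidableEq X] [DecidableEq Z] (h : X → Z) (b : X → Bool) (x : X)
    (z : Z) (hb : b x = false) : tb (Function.update h x z) b = tb h b := by
  funext v
  unfold tb
  by_cases hv : v.1 = x
  · simp only [hv, hb, Bool.false_and]
  · rw [Function.update_of_ne hv]

/-- One stage of the construction. -/
theorem stg (hPRX : T_PRX) (hMSK : T_MSK) (hBUX : T_BUX) (hFMX : T_FMX) (hWRF : T_WRF)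
    (hCHS : T_CHS) (hGEX : T_GEX) (hFID : T_FID) (hCLE : T_CLE) (hBSC : T_BSC) (hFEW : T_FEW)
    (hHQM : T_HQM) (hQMS : T_QMS) (hSEL : T_SEL) (hBLG : T_BLG) (hPCG : T_PCG) (hCLH : T_CLH)
    (hNST : T_NST) (hCOD : T_COD) (hFIS : T_FIS) (hNUM : T_NUM) (hL12 : T_L12) : T_STG := by
  classical
  intro K c C c' a0 b q ε hε ha0 hc prog hprog
  obtain ⟨a, ha, hev⟩ := hPRX K c ((C + 1) * (q + 1)) c' a0 b ε hε ha0 hc
  refine ⟨a, ?_⟩
  filter_upwards [hev, eventually_ge_atTop (8 * q + 8)] with n hn hnq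
  obtain ⟨t, S', M, w', w0, r0, k0, w, r, k, δ, δm, hn8, ht1, hnc, hn3, hnS, hnt, hw01, hk01,
    hkap, hδ0, hPrm, hδm, hδ16, h2S, htS, hKM, hM1, hMS, hbig, hw1, hL, hfin, hfin2⟩ := hn
  intro J _ Q hJ hQ ι _ S hι hS A σ₀ hA hAK hDec hU
  have hn2 : 2 ≤ n := by omega
  have : Finite (Om n (2 ^ a)) := hFIS.2.1 n (2 ^ a)
  let inst : Fintype (Om n (2 ^ a)) := Fintype.ofFinite _
  obtain ⟨hcard, hsum⟩ := hFIS.2.2 n (2 ^ a)
  obtain ⟨O₀, h0⟩ := hBLG _ hA σ₀
  obtain ⟨D, hSys, hD'⟩ := hFMX 1 K prog n a t O₀ hprog hn2 hnt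
  have hD : ∀ (s : Om n (2 ^ a)) T e P, (A s.1 (fun w => vlG T e P (clg 1 n (2 ^ a) O₀ w)) ↔
      accG D P s T e = true) := by
    intro s T e P
    rw [← hD' s T e P]
    exact hAK _ _ ((Nat.le_self_pow (by norm_num) n).trans s.2.1)
  have hX : Fintype.card (Xn n) = 2 ^ n := by simp
  have hZ : Fintype.card (Ys n 0) = 2 ^ (2 * n) := by simp
  have hlen : ∀ s : Om n (2 ^ a), n ≤ s.1.length := fun s =>
    (Nat.le_self_pow (by norm_num) n).trans s.2.1
  have h2n : (0 : ℝ) < 2 ^ n := by positivity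
  have hq : (1 : ℝ) / 4 ≥ 2 / 2 ^ n ^ 2 := by
    have : (8 : ℝ) ≤ 2 ^ n ^ 2 := by
      calc (8 : ℝ) = 2 ^ 3 := by norm_num
        _ ≤ 2 ^ n ^ 2 := pow_le_pow_right₀ (by norm_num) (by nlinarith)
    rw [ge_iff_le, div_le_div_iff₀ (by positivity) (by norm_num)]
    linarith
  have h1t : 1 ≤ 2 ^ t := Nat.one_le_two_pow
  have h1a : 1 ≤ a := by omega
  -- the base of the induction
  have hbase : ∀ f : (Nn n 1 → Bool) → Bool, Fm (2 ^ t) t K f →
      ((univ.filter fun p : Wn n => k 0 < (univ.filter fun x =>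
        f (UU n p x) ≠ f (TT n p)).card).card : ℝ) ≤ δ 0 * Fintype.card (Wn n) := by
    intro f hf
    have h := hBSC (Xn n) (Ys n 0) (2 ^ t) t K w0 r0 k0 (k 0) hw01 hk01 hkap f hf
    refine h.trans ?_
    refine mul_le_mul_of_nonneg_right ?_ (by positivity)
    refine le_trans (le_of_eq ?_) hδ0
    rw [hX]
    push_cast
    rfl
  have hfew : ((univ.filter fun p : Wn n => Few p).card : ℝ) ≤ 1 / 16 * Fintype.card (Wn n) :=
    hFEW (Xn n) (Ys n 0) (by
      rw [hX]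
      calc 64 = 2 ^ 6 := by norm_num
        _ ≤ 2 ^ n := Nat.pow_le_pow_right (by norm_num) (by omega))
  have hδ0' : (0 : ℝ) ≤ δm := (hPrm.δ_nonneg 0).trans (hδm 0 (by omega))
  have hΩδ : (Fintype.card (Om n (2 ^ a)) : ℝ) * δm ≤ 1 / 16 := by
    refine le_trans (mul_le_mul_of_nonneg_right (b := ((Fintype.card (Om n (2 ^ a)) : ℕ) : ℝ))
      (c := (2 : ℝ) ^ n ^ 2 ^ a) ?_ hδ0') hδ16
    exact_mod_cast hcard
  -- the oracle of a seed
  choose Orc hOr using fun σ => hBLG A hA σ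
  set τ : ℝ := ((C + 1 : ℕ) : ℝ) * ((q + 1 : ℕ) : ℝ) * 2 ^ ((1 / 2 - ε) * n) with hτ
  have hτ0 : 0 < τ := by positivity
  have hτQ : ∀ j (x : Xn n), (Fintype.card J : ℝ) * (Q j (List.ofFn x)).T ≤ τ := by
    intro j x
    have h1 := (hQ j (List.ofFn x) List.length_ofFn).2
    have h2 : (Fintype.card J : ℝ) ≤ ((q + 1 : ℕ) : ℝ) := by exact_mod_cast hJ.trans (by omega)
    have h3 : (0 : ℝ) ≤ 2 ^ ((1 / 2 - ε) * n) := by positivity
    calc (Fintype.card J : ℝ) * (Q j (List.ofFn x)).T ≤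
          ((q + 1 : ℕ) : ℝ) * (((C + 1 : ℕ) : ℝ) * 2 ^ ((1 / 2 - ε) * n)) := by
          refine mul_le_mul h2 (h1.trans (mul_le_mul_of_nonneg_right ?_ h3)) (by positivity)
            (by positivity)
          push_cast
          linarith
      _ = τ := by rw [hτ]; ring
  have hτ2 : 4608 * τ ^ 2 < 2 ^ n / 4 := by
    have : τ = (((C + 1) * (q + 1) : ℕ) : ℝ) * 2 ^ ((1 / 2 - ε) * n) := by
      rw [hτ]; push_cast; ring
    rw [this]
    exact hfin
  obtain ⟨G, hGdef⟩ : ∃ G : Wn n → (Om n (2 ^ a) → Bool) →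
      Blk (fun s : Om n (2 ^ a) => ns s.1) (fun s => qs s.1) → Prop, ∀ p κ P, G p κ P ↔
    ∃ x, p.2 x = false ∧ 8 * τ / Fintype.card (Xn n) <
      ∑ j, qm (Q j (List.ofFn x)) (Orc (sdg 1 n (2 ^ a) σ₀ (TT n p) κ P)) (pst n x (p.1 x)) :=
    ⟨_, fun _ _ _ => Iff.rfl⟩
  have hG : ∀ κ P, ((univ.filter fun p : Wn n => G p κ P).card : ℝ) ≤
      1 / 8 * Fintype.card (Wn n) := by
    intro κ P
    have h1 : ∀ b : Xn n → Bool, ((univ.filter fun h : Xn n → Ys n 0 =>
        G (h, b) κ P).card : ℝ) ≤ 1 / 8 * (Fintype.card (Ys n 0) : ℝ) ^ Fintype.card (Xn n) := by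
      intro b
      refine le_trans (Nat.cast_le.2 (card_le_card fun h hh => ?_)) (hHQM (Xn n) (Ys n 0) b (fun h => Orc (sdg 1 n (2 ^ a) σ₀ (TT n (h, b)) κ P))
        (fun x z => pst n x z) (fun x O w => ∑ j, qm (Q j (List.ofFn x)) O w) τ ?_ ?_ ?_ ?_ hτ0
        ?_ ?_)
      · rw [mem_filter] at hh ⊢
        exact ⟨mem_univ _, (hGdef _ _ _).1 hh.2⟩
      · intro h x z hb
        have : TT n (Function.update h x z, b) = TT n (h, b) := tb_update h b x z hb
        simp only [this]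
      · intro x z z' hz
        exact (pst_inj hz).2
      · intro x O w
        exact sum_nonneg fun j _ => (hQMS _ _).1 w
      · intro x O s
        rw [sum_comm]
        refine (sum_le_sum fun j _ => (hQMS (Q j (List.ofFn x)) O).2 s).trans ?_
        rcases isEmpty_or_nonempty J with hJe | hJe
        · rw [sum_eq_zero fun j _ => (hJe.elim j)]
          exact hτ0.le
        · obtain ⟨j0, hj0⟩ := Finite.exists_max fun j => (Q j (List.ofFn x)).T
          refine le_trans (sum_le_sum (g := fun _ => ((Q j0 (List.ofFn x)).T : ℝ)) fun j _ => ?_) ?_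
          · exact_mod_cast hj0 j
          · rw [sum_const, nsmul_eq_mul, card_univ]
            exact hτQ j0 x
      · rw [hX, hZ, ← pow_mul, mul_comm]
      · rw [hX]; positivity
    have h2 := card_pairs (α := Xn n → Ys n 0) (β := Xn n → Bool) (fun p => G p κ P)
      _ h1
    refine h2.trans (le_of_eq ?_)
    rw [Fintype.card_prod, Fintype.card_fun (α := Xn n) (β := Ys n 0)]
    push_cast
    ring
  obtain ⟨p, κ, P, hEvt, hDecA, hGn⟩ := hGEX (Wn n) (Nn n 1) (Om n (2 ^ a)) (fun s => ns s.1)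
    (fun s => qs s.1) (TT n) D (fun s => lv n s.1) (2 ^ t) t K a S' ((K + 5) * a + 3) (2 ^ n - 1)
    (Evt Few (TT n) (UU n) D (fun s => lv n s.1) a0 a k) G hSys
    (fun s => by simp only [qs]; omega)
    (fun s f hf => by
      have e0 : (K + 5) * a + 3 = (K + 5) * a + 2 + 1 := rfl
      rw [e0] at hf
      have := hL12 (VV (qs s.1)) S' ((K + 5) * a + 2) w' f hw1 hf
      refine this.trans ?_
      have hc : (Fintype.card (VV (qs s.1)) : ℝ) = 2 * 2 ^ qs s.1 := by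
        have : Fintype.card (VV (qs s.1)) = 2 * 2 ^ qs s.1 := by simp [VV]
        rw [this]; push_cast; rfl
      rw [hc]
      have h := hL (qs s.1) (by have := s.2.2; simp only [qs]; omega)
      linarith)
    (fun p e P s i => hCLE (Wn n) (Xn n) (Nn n 1) (Om n (2 ^ a)) (fun s => ns s.1)
      (fun s => qs s.1) Few (TT n) (UU n) D (fun s => lv n s.1) (2 ^ t) t K a a0 S' M k hSys h1t
      ht1 h1a h2S htS htS hKM hMS (by rw [hX]; exact (Nat.mul_le_mul_right _ hcard).trans hbig)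
      (by rw [hX]; exact Nat.one_le_two_pow) p e P s i)
    (hFID (Wn n) (Xn n) (Nn n 1) (Om n (2 ^ a)) (fun s => ns s.1) (fun s => qs s.1) Few (TT n)
      (UU n) D (fun s => lv n s.1) (2 ^ t) t K a a0 w r k δ δm hSys (by rw [hX]; exact hPrm) h1t
      h1a hbase hδm hΩδ hfew)
    hG
    (by
      refine le_trans (sum_le_sum fun s _ => ?_) (hsum.trans hq)
      refine le_trans ?_ (hNUM s.1).1
      refine mul_le_mul_of_nonneg_left ?_ (by positivity)
      refine div_le_div_of_nonneg_right ?_ (by positivity)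
      rw [sub_add_cancel]
      exact pow_le_pow_right₀ (by norm_num) (hlen s))
    (by
      refine le_trans (sum_le_sum fun s _ => ?_) (hsum.trans hq)
      exact (hNUM s.1).2)
  -- the worlds
  choose Ox hOx using fun x => hBLG _ ((hMSK A hA).1 (n ^ 2 ^ a0) (pst n x (p.1 x)))
    (sdg 1 n (2 ^ a) σ₀ (UU n p x) κ P)
  have hW : Wor n a a0 A σ₀ O₀ (Orc (sdg 1 n (2 ^ a) σ₀ (TT n p) κ P)) Ox p κ P :=
    ⟨hn2, ha0, ha, hn3, hA, h0, hOr _, hOx⟩
  obtain ⟨hch1, hch2⟩ := hCHS n a a0 M A σ₀ O₀ _ Ox p κ P D (2 ^ t) t K Few k hW hSys h1t ht1 hD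
    hEvt hM1 hKM
  set OT := Orc (sdg 1 n (2 ^ a) σ₀ (TT n p) κ P) with hOT
  set N0 : Finset (Xn n) := univ.filter fun x => p.2 x = false with hN0
  have hN04 : (2 : ℝ) ^ n / 4 ≤ N0.card := by
    have h1 : ¬ Few p := fun h => hEvt (Or.inl h)
    unfold Few at h1
    rw [hX, ← hN0] at h1
    push Not at h1
    have h2 : (2 : ℝ) ^ n ≤ 4 * N0.card := by exact_mod_cast h1
    linarith
  have hN0X : (N0.card : ℝ) ≤ Fintype.card (Xn n) := by
    exact_mod_cast card_le_univ N0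
  have hN0p : (0 : ℝ) < N0.card := lt_of_lt_of_le (by positivity) hN04
  have hHN : n ^ 2 ^ a0 ≤ n ^ 2 ^ a := Nat.pow_le_pow_right (by omega)
    (Nat.pow_le_pow_right (by norm_num) ha.le)
  obtain ⟨x, hx0, hx1, hx2⟩ := hSEL (Xn n) ι J N0 OT Ox (fun x => pst n x (p.1 x))
    (fun j x => Q j (List.ofFn x)) S (fun x => {s : List Bool | s.length < n ^ 2 ^ a0 ∧
      ¬ (A s (msk (pst n x (p.1 x)) (Ox x)) ↔ A s (Ox x))}) (n ^ c + c)
    ((n ^ 2 ^ a0) ^ c' + c') M τ (2 ^ (n / 4 + 1)) (1 / 2 ^ (n / 4))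
    (fun x x' h => (pst_inj h).1)
    (fun j x => ⟨(hQ j _ List.length_ofFn).1, hτQ j x⟩)
    (fun x hx w hw hne => by
      have h1 := (hWRF n a a0 A σ₀ O₀ OT Ox p κ P hW x (mem_filter.1 hx).2).2.1 w (hw.trans hnc)
      unfold msk at h1
      rw [if_neg hne] at h1
      exact h1)
    (fun j x hx => by
      have h1 : ¬ 8 * τ / Fintype.card (Xn n) <
          ∑ j, qm (Q j (List.ofFn x)) OT (pst n x (p.1 x)) := fun h =>
        hGn ((hGdef _ _ _).2 ⟨x, (mem_filter.1 hx).2, h⟩)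
      push Not at h1
      have h2 : qm (Q j (List.ofFn x)) OT (pst n x (p.1 x)) ≤
          ∑ j, qm (Q j (List.ofFn x)) OT (pst n x (p.1 x)) :=
        single_le_sum (f := fun j => qm (Q j (List.ofFn x)) OT (pst n x (p.1 x)))
          (fun j _ => (hQMS _ _).1 _) (mem_univ j)
      refine h2.trans (h1.trans ?_)
      exact div_le_div_of_nonneg_left (by positivity) hN0p hN0X)
    (fun i => ⟨(hS i).1, by
      have h1 := (hS i).2
      have h2 : (S i).alg.T ^ 2 ≤ 2 ^ (n / 4 + 1) := by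
        by_contra hcon
        push Not at hcon
        have h3 : (2 ^ (n / 4 + 1)) ^ 4 < ((S i).alg.T ^ 2) ^ 4 :=
          Nat.pow_lt_pow_left hcon (by norm_num)
        rw [← pow_mul, ← pow_mul] at h3
        have h4 : 2 ^ n ≤ 2 ^ ((n / 4 + 1) * 4) := Nat.pow_le_pow_right (by norm_num) (by omega)
        have h5 : (S i).alg.T ^ (2 * 4) = (S i).alg.T ^ 8 := rfl
        omega
      exact_mod_cast h2⟩)
    (fun w hw => hch1 w (hw.trans hnS))
    (fun s => le_trans (le_of_eq (card_inst _ _ _ _)) (hch2 s))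
    (by
      have h1 : (8 * Fintype.card J : ℕ) * (4 : ℝ) < 2 ^ n := by
        have h2 : 8 * Fintype.card J * 4 < 2 ^ n := by
          have h4 : 8 * Fintype.card J ≤ n := by omega
          have h5 : n - 3 < 2 ^ (n - 3) := Nat.lt_two_pow_self
          have h6 : 2 ^ n = 2 ^ (n - 3) * 8 := by
            rw [show (8 : ℕ) = 2 ^ 3 by norm_num, ← pow_add]; congr 1; omega
          omega
        exact_mod_cast h2
      have h2 : ((8 * Fintype.card J : ℕ) : ℝ) < N0.card := by linarith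
      exact_mod_cast h2)
    (lt_of_lt_of_le hτ2 hN04) hτ0 (by positivity)
    (by
      have h1 : (Fintype.card ι : ℝ) ≤ (n : ℝ) ^ b := by exact_mod_cast hι
      have h2 : (0 : ℝ) ≤ 2 * M + 8 * 2 ^ (n / 4 + 1) * M := by positivity
      calc 8 * ((Fintype.card ι : ℝ) * (2 * M + 8 * 2 ^ (n / 4 + 1) * M)) ≤
            8 * ((n : ℝ) ^ b * (2 * M + 8 * 2 ^ (n / 4 + 1) * M)) := by
            exact mul_le_mul_of_nonneg_left (mul_le_mul_of_nonneg_right h1 h2) (by norm_num)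
        _ ≤ 1 / 2 ^ (n / 4) * (2 ^ n / 4) := hfin2
        _ ≤ 1 / 2 ^ (n / 4) * N0.card := mul_le_mul_of_nonneg_left hN04 (by positivity))
  refine final hPCG hCLH hNST hCOD hMSK hBUX hW (hnc.trans hHN) hnS
    (fun j x hx => (hQ j x hx).1) (fun i => (hS i).1) hDec hU hDecA (x := x) ?_ hx2
  intro j
  obtain ⟨x', hx'⟩ := hx1 j
  refine ⟨x', ?_⟩
  rcases hx' with h | ⟨h1, h2, h3⟩
  · exact Or.inl h
  · exact Or.inr ⟨h1, (mem_filter.1 h2).2, h3⟩

end Pool.Agent.H75.GS.STG
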