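import Pool.Agent.H70.OQ.All
import Pool.Agent.H75.GS.GEX
import Pool.Agent.H75.GS.STG
import Pool.Agent.H75.GS.FIN
import Pool.Agent.H87.GS.BBH
import Pool.Agent.H78.GS.BSC
import Pool.Agent.H97.GS.BUX
import Pool.Agent.H4.GSQ.CHS
import Pool.Agent.H97.GS.CLE
import Pool.Agent.H71.GS.DGL
import Pool.Agent.H11.GS.DUM
import Pool.Agent.H97.GS.ERL
import Pool.Agent.H85.GS.FEW
import Pool.Agent.H24.GS.FID
import Pool.Agent.H97.GS.FMX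
import Pool.Agent.H62.GS.GRW
import Pool.Agent.H69.GS.HQM
import Pool.Agent.H11.GS.HTS
import Pool.Agent.H62.GS.LKX
import Pool.Agent.H68.GS.LMX
import Pool.Agent.H89.GS.MGS
import Pool.Agent.H89.GS.MSK
import Pool.Agent.H69.GS.PRX
import Pool.Agent.H1.GS.QMS
import Pool.Agent.H4.GSQ.SEL
import Pool.Agent.H68.GS.STR
import Pool.Agent.H13.GS.SYX
import Pool.Agent.H13.GS.UNX
import Pool.Agent.H1.GS.WLM
import Pool.Agent.H62.GS.WRF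
import Pool.Agent.H68.GS.WRT

/-!
# An oracle relative to which the errors of a quantum heuristic for PH are hard to find: assembly
-/

set_option autoImplicit false

namespace Pool.Agent.H75.GS

open Pool.Agent.H70.OQ

theorem a_SYX : T_SYX := Pool.Agent.H13.GS.pf_SYX pf_FMS

theorem a_LKX : T_LKX :=
  Pool.Agent.H62.GS.pf_LKX Pool.Agent.H97.GS.pf_BUX pf_CLH pf_NST Pool.Agent.H6.NB.pf_COD

theorem a_WRF : T_WRF := Pool.Agent.H62.GS.pf_WRF pf_CLH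

theorem a_WRT : T_WRT := Pool.Agent.H68.GS.wrt a_WRF a_LKX Pool.Agent.H89.GS.pf_MSK a_SYX

theorem a_CHS : T_CHS :=
  Pool.Agent.H4.GSQ.pf_CHS a_WRF a_WRT a_LKX Pool.Agent.H89.GS.pf_MSK a_SYX pf_MEG pf_EXG

theorem a_FMX : T_FMX := Pool.Agent.H97.GS.pf_FMX pf_CLH Pool.Agent.H6.NB.pf_COD
  Pool.Agent.H6.NB.pf_LVL Pool.Agent.H6.NB.pf_FIS

theorem a_GEX : T_GEX := GEX.gex pf_MEG Pool.Agent.H6.NB.pf_HYB Pool.Agent.H6.NB.pf_CPY pf_CHG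
  Pool.Agent.H6.NB.pf_CLR Pool.Agent.H6.NB.pf_DIF Pool.Agent.H6.NB.pf_MUP Pool.Agent.H6.NB.pf_DCP

theorem a_FID : T_FID := Pool.Agent.H24.GS.pf_FID pf_IDG pf_MEG pf_EXG pf_FMS a_SYX

theorem a_CLE : T_CLE := Pool.Agent.H97.GS.pf_CLE a_SYX pf_CBG Pool.Agent.H6.NB.pf_CLB

theorem a_SEL : T_SEL :=
  Pool.Agent.H4.GSQ.pf_SEL Pool.Agent.H87.GS.pf_BBH Pool.Agent.H11.GS.pf_HTS
    Pool.Agent.H89.GS.pf_MGS

theorem a_STG : T_STG := STG.stg (Pool.Agent.H69.GS.pf_PRX pf_PMG) Pool.Agent.H89.GS.pf_MSK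
  Pool.Agent.H97.GS.pf_BUX a_FMX a_WRF a_CHS a_GEX a_FID a_CLE
  (Pool.Agent.H78.GS.bsc pf_CLG pf_CUB) Pool.Agent.H85.GS.pf_FEW Pool.Agent.H69.GS.pf_HQM
  Pool.Agent.H1.GS.pf_QMS a_SEL pf_BLG Pool.Agent.H6.NB.pf_PCG pf_CLH pf_NST
  Pool.Agent.H6.NB.pf_COD Pool.Agent.H6.NB.pf_FIS Pool.Agent.H6.NB.pf_NUM
  Pool.Agent.H6.NB.pf_L12

theorem a_FIN : T_FIN := FIN.fin Pool.Agent.H1.GS.pf_WLM (Pool.Agent.H13.GS.pf_UNX pf_UNG)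
  (Pool.Agent.H68.GS.str a_STG Pool.Agent.H62.GS.pf_GRW Pool.Agent.H89.GS.pf_MSK)
  (Pool.Agent.H11.GS.pf_DUM pf_LAK) Pool.Agent.H71.GS.pf_DGL Pool.Agent.H68.GS.lmx
  (Pool.Agent.H97.GS.pf_ERL pf_YEG Pool.Agent.H6.NB.pf_COD) pf_BLG

end Pool.Agent.H75.GS
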