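import Pool.Agent.H4.GSQ.CHS
import Pool.Agent.H75.GS.Targets3

/-!
# CHT: only few rows matter for the true answers
-/

set_option autoImplicit false

namespace Pool.Agent.H75.GS.CHT

open Finset Filter Pool.Agent.H6.NB Pool.Agent.H70.OQ Pool.Agent.H75.GS Pool.Agent.H4.GSQ

open Classical in
theorem pf_CHT (hWRF : T_WRF) (hWRT : T_WRT) (hLKX : T_LKX) (hMSK : T_MSK) (hSYX : T_SYX)
    (hMEG : T_MEG) (hEXG : T_EXG) : T_CHT := by
  intro n a a0 M A σ₀ O₀ OT Ox p κ P D S t d few k hW hSy hS ht hD hE hM1 hkM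
  obtain ⟨hT, hX⟩ := hWRT n a a0 A σ₀ O₀ OT Ox p κ P D S t d hW hSy hS ht hD
  have hF := hWRF n a a0 A σ₀ O₀ OT Ox p κ P hW
  obtain ⟨-, hm2, hm3⟩ := hMSK A hW.loc
  have hn := hW.n2
  have ha : 0 < a := lt_of_le_of_lt (Nat.zero_le _) hW.aa
  have hlen : ∀ x, n ^ 2 ≤ (pst n x (p.1 x)).length ^ 2 := fun x => by
    rw [chs_pst]
    exact Nat.pow_le_pow_left (by omega) 2
  -- the values of the oracles
  have vT : ∀ w : List Bool, w.length ≤ n ^ 2 ^ a → OT w =
      vlG (TT n p) (fun s : Om n (2 ^ a) => OT (key s.1)) P (clg 1 n (2 ^ a) O₀ w) :=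
    hLKX 1 A A n (2 ^ a) σ₀ O₀ OT (TT n p) κ P hW.loc (fun _ _ _ => Iff.rfl) hn hW.b0 hW.bT
  have vX : ∀ x, ∀ w : List Bool, w.length ≤ n ^ 2 ^ a → Ox x w =
      vlG (UU n p x) (fun s : Om n (2 ^ a) => Ox x (key s.1)) P (clg 1 n (2 ^ a) O₀ w) := fun x =>
    hLKX 1 A (mskA (n ^ 2 ^ a0) (pst n x (p.1 x)) A) n (2 ^ a) σ₀ O₀ (Ox x) (UU n p x) κ P hW.loc
      (fun s O hs => hm3 _ _ s O (hs.trans_le (hlen x))) hn hW.b0 (hW.bx x)
  -- typicality
  unfold Evt at hE
  push Not at hE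
  obtain ⟨-, hE1, hE2⟩ := hE
  rw [← hT] at hE1 hE2
  intro s hs
  rcases lt_or_ge s.length (n ^ 2) with h2 | h2
  · -- a short instance
    have hpow : n ^ 2 ≤ n ^ 2 ^ a0 := by
      have h1 : 1 ≤ a0 := hW.a1
      exact Nat.pow_le_pow_right (by omega) (Nat.le_self_pow (by omega) 2)
    have : ((univ.filter fun x => p.2 x = false).filter fun x => ¬ (A s (Ox x) ↔ A s OT)) = ∅ := by
      refine filter_eq_empty_iff.2 fun x hx h => ?_
      obtain ⟨-, -, hF3, hF4⟩ := hF x (mem_filter.1 hx).2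
      exact h ((hm2 s _ _ (h2.trans_le (hlen x))).symm.trans (hF4 s (h2.trans_le hpow)))
    rw [this]; simp
  obtain ⟨s', rfl⟩ : ∃ s' : Om n (2 ^ a), s'.1 = s := ⟨⟨s, h2, hs⟩, rfl⟩
  set eT : Om n (2 ^ a) → Bool := fun s => OT (key s.1) with heT
  have hAT : A s'.1 OT ↔ accG D P s' (TT n p) eT = true := by
    rw [← hD]
    refine hW.loc s'.1 _ _ fun w hw => vT w ?_
    have h4 : w.length ≤ w.length ^ 2 := Nat.le_self_pow (by norm_num) _
    exact h4.trans (hw.trans s'.2.2.le)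
  have hAX : ∀ x, A s'.1 (Ox x) ↔
      accG D P s' (UU n p x) (fun s : Om n (2 ^ a) => Ox x (key s.1)) = true := by
    intro x
    rw [← hD]
    refine hW.loc s'.1 _ _ fun w hw => vX x w ?_
    have h4 : w.length ≤ w.length ^ 2 := Nat.le_self_pow (by norm_num) _
    exact h4.trans (hw.trans s'.2.2.le)
  rcases lt_or_ge (lv n s'.1) a0 with hlv | hlv
  · -- a frozen instance
    have hSyD := (hSYX (Nn n 1) (Om n (2 ^ a)) (fun s => ns s.1) (fun s => qs s.1) D
      (fun s => lv n s.1) S t d a a0 hS ht hSy).1 eT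
    have hLv := (hMEG (Nn n 1) (Om n (2 ^ a)) (fun s => ns s.1) (fun s => qs s.1)
      (Dfr D (fun s => lv n s.1) a0 eT) (fun s => lv n s.1) S t d a hSyD P).1
    have hX3 := (hEXG (Nn n 1) (Om n (2 ^ a)) (accG (Dfr D (fun s => lv n s.1) a0 eT) P)
      (fun s => lv n s.1) a hLv).2.2.1
    refine le_trans (card_le_card (t := dsG (accG (Dfr D (fun s => lv n s.1) a0 eT) P) a (TT n p)
      (UU n p) eT s') ?_) ((hE1 s' (hSy.lt s')).trans (hkM _ ha))
    intro x hx
    rw [mem_filter, mem_filter] at hx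
    obtain ⟨⟨-, hx1⟩, hx2⟩ := hx
    obtain ⟨-, -, hF3, -⟩ := hF x hx1
    unfold dsG
    rw [mem_filter]
    refine ⟨mem_univ _, ?_⟩
    rw [hX3]
    have hacc : ∀ T e, accG (Dfr D (fun s => lv n s.1) a0 eT) P s' T e = accG D P s' T eT := by
      intro T e
      unfold accG Dfr
      rw [chs_kst]
      have : decide (lv n s'.1 < a0) = true := decide_eq_true hlv
      simp only [this, Bool.true_and]
    rw [hacc, hacc]
    have hlow : accG D P s' (UU n p x) (fun s : Om n (2 ^ a) => Ox x (key s.1)) =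
        accG D P s' (UU n p x) eT := by
      unfold accG
      refine hSy.low s' _ _ fun c hc => ?_
      cases c with
      | cst b => rfl
      | bas v => rfl
      | key s'' =>
        have h5 : lv n s''.1 < a0 := lt_trans hc hlv
        exact hF3 s''.1 ((chs_lv hn s''.2.1).1 h5)
      | blk _ _ _ => rfl
    rw [hAX, hAT, hlow] at hx2
    revert hx2
    cases accG D P s' (TT n p) eT <;> cases accG D P s' (UU n p x) eT <;> simp
  · -- an aware instance
    have hSyD := (hSYX (Nn n 1) (Om n (2 ^ a)) (fun s => ns s.1) (fun s => qs s.1) D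
      (fun s => lv n s.1) S t d a a0 hS ht hSy).2
    have hLv := (hMEG (Nn n 1) (Om n (2 ^ a)) (fun s => ns s.1) (fun s => qs s.1)
      (Daw D (fun s => lv n s.1) a0) (fun s => lv n s.1) S t d a hSyD P).1
    have hX3 := (hEXG (Nn n 1) (Om n (2 ^ a)) (accG (Daw D (fun s => lv n s.1) a0) P)
      (fun s => lv n s.1) a hLv).2.2.1
    refine le_trans (card_le_card (t := dsG (accG (Daw D (fun s => lv n s.1) a0) P) a (TT n p)
      (UU n p) eT s') ?_) ((hE2 s' (hSy.lt s')).trans (hkM _ (hSy.lt s')))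
    intro x hx
    rw [mem_filter, mem_filter] at hx
    obtain ⟨⟨-, hx1⟩, hx2⟩ := hx
    unfold dsG
    rw [mem_filter]
    refine ⟨mem_univ _, ?_⟩
    rw [hX3, ← hX x hx1]
    have hacc : ∀ T e, accG (Daw D (fun s => lv n s.1) a0) P s' T e = accG D P s' T e := by
      intro T e
      unfold accG Daw
      have : decide (lv n s'.1 < a0) = false := decide_eq_false (not_lt.2 hlv)
      simp only [this, Bool.not_false, Bool.true_and]
    rw [hacc, hacc]
    rw [hAX, hAT] at hx2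
    revert hx2
    cases accG D P s' (TT n p) eT <;>
      cases accG D P s' (UU n p x) (fun s : Om n (2 ^ a) => Ox x (key s.1)) <;> simp

end Pool.Agent.H75.GS.CHT
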