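import Pool.Agent.H4.GSQ.SEL
import Pool.Agent.H75.GS.Targets3

/-!
# SLE: the choice of the row; each sampler has its own oracle
-/

set_option autoImplicit false

namespace Pool.Agent.H75.GS.SLE

open Finset Filter Pool.Agent.H6.NB Pool.Agent.H70.OQ Pool.Agent.H75.GS Pool.Agent.H4.GSQ

open Classical in
theorem pf_SLE (hBBH : T_BBH) (hHTS : T_HTS) (hMGS : T_MGS) : T_SLE := by
  intro X ι J _ _ N0 OT Ox ET Ex ps Q S E LQ LS M τ τS η hps hQ h1 h2 h3 h4 h5 hNJ hN hτ hη hM
  have hNJ' : 8 * (Fintype.card J : ℝ) < N0.card := by exact_mod_cast hNJ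
  have hn0 : (0 : ℝ) < N0.card := lt_of_le_of_lt (by positivity) hNJ'
  set n : ℝ := (N0.card : ℝ) with hn
  have hhit : ∀ i x, 0 ≤ (S i).hit (Ex i x) (E x) := by
    intro i x
    unfold Sampler.hit
    refine sum_nonneg fun z _ => ?_
    split_ifs
    · positivity
    · exact le_rfl
  -- the samplers
  have hsum : ∀ i, ∑ x ∈ N0, (S i).hit (Ex i x) (E x) ≤ 2 * M + 8 * τS * M := by
    intro i
    obtain ⟨a1, -, a3⟩ := hHTS (S i) (ET i) (ET i)
    have b1 : ∑ x ∈ N0, (S i).hit (ET i) (E x) ≤ M := a3 X N0 E M h5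
    have b2 := hMGS X N0 (S i).alg (ET i) (Ex i) LS M (h3 i).1 (h4 i)
    have b3 : ∀ x ∈ N0, (S i).hit (Ex i x) (E x) ≤ 2 * (S i).hit (ET i) (E x) +
        2 * (4 * (S i).alg.T * mg (S i).alg (ET i) (Ex i x)) := by
      intro x _
      have c1 := (hHTS (S i) (ET i) (Ex i x)).1 (E x)
      have c2 := (hBBH (S i).alg (ET i) (Ex i x)).2.2.1
      linarith
    have hT0 : (0 : ℝ) ≤ (S i).alg.T := Nat.cast_nonneg _
    have hM0 : (0 : ℝ) ≤ M := Nat.cast_nonneg _
    calc ∑ x ∈ N0, (S i).hit (Ex i x) (E x) ≤ ∑ x ∈ N0, (2 * (S i).hit (ET i) (E x) +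
        2 * (4 * (S i).alg.T * mg (S i).alg (ET i) (Ex i x))) := sum_le_sum b3
      _ = 2 * ∑ x ∈ N0, (S i).hit (ET i) (E x) +
          8 * (S i).alg.T * ∑ x ∈ N0, mg (S i).alg (ET i) (Ex i x) := by
        rw [sum_add_distrib, ← mul_sum, ← mul_sum, ← mul_sum]; ring
      _ ≤ 2 * M + 8 * (S i).alg.T * ((S i).alg.T * M) := by gcongr
      _ = 2 * M + 8 * ((S i).alg.T ^ 2) * M := by ring
      _ ≤ 2 * M + 8 * τS * M := by
        have := (h3 i).2
        gcongr
  set F : X → ℝ := fun x => ∑ i, (S i).hit (Ex i x) (E x) with hF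
  have hF0 : ∀ x, 0 ≤ F x := fun x => sum_nonneg fun i _ => hhit i x
  have hFs : 8 * ∑ x ∈ N0, F x ≤ η * n := by
    rw [hF, sum_comm]
    calc 8 * ∑ i, ∑ x ∈ N0, (S i).hit (Ex i x) (E x) ≤ 8 * ∑ _i : ι, (2 * M + 8 * τS * M) := by
          gcongr with i _
          exact hsum i
      _ = 8 * (Fintype.card ι * (2 * M + 8 * τS * M)) := by
          rw [sum_const, nsmul_eq_mul, card_univ]
      _ ≤ _ := hM
  -- the bad rows of the samplers
  set B : Finset X := N0.filter fun x => η < F x with hB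
  have hBc : 8 * (B.card : ℝ) ≤ n := by
    have := sel_markov N0 F (fun x _ => hF0 x) η
    rw [← hB] at this
    have h' : 8 * (B.card : ℝ) * η ≤ n * η := by nlinarith
    exact le_of_mul_le_mul_right h' hη
  have hgood : ∀ x ∈ N0, x ∉ B → ∀ i, (S i).hit (Ex i x) (E x) ≤ η := by
    intro x hx hxB i
    have h' : F x ≤ η := by
      by_contra hc
      exact hxB (mem_filter.2 ⟨hx, not_le.1 hc⟩)
    exact (single_le_sum (f := fun i => (S i).hit (Ex i x) (E x)) (fun i _ => hhit i x)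
      (mem_univ i)).trans h'
  -- the bad rows of the algorithms
  have hD : ∀ j, ∃ D : Finset X, 8 * τ * (D.card : ℝ) ≤ τ / Fintype.card J * n + 8 * τ ∧
      ∀ x ∈ N0, x ∉ D → ∃ x', (x' = x ∧ (Q j x').prob (Ox x) < 2 / 3) ∨
        (x' ≠ x ∧ x' ∈ N0 ∧ 1 / 3 < (Q j x').prob (Ox x)) := by
    intro j
    have hJ : (1 : ℝ) ≤ Fintype.card J := by
      have : 0 < Fintype.card J := Fintype.card_pos_iff.2 ⟨j⟩
      exact_mod_cast this
    refine sel_one hBBH hMGS N0 OT Ox ps (Q j) LQ τ (τ / Fintype.card J) hps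
      (fun x => ⟨(hQ j x).1, ?_⟩) ?_ h1 (h2 j) hn0 hN hτ
    · rw [le_div_iff₀ (by linarith)]
      have := (hQ j x).2
      linarith
    · exact div_le_self hτ.le hJ
  choose D hD1 hD2 using hD
  have hDs : 8 * ∑ j, ((D j).card : ℝ) ≤ n + 8 * Fintype.card J := by
    have e1 : τ * (8 * ∑ j, ((D j).card : ℝ)) ≤ τ * (n + 8 * Fintype.card J) := by
      calc τ * (8 * ∑ j, ((D j).card : ℝ)) = ∑ j, 8 * τ * ((D j).card : ℝ) := by
            rw [← mul_sum]; ring
        _ ≤ ∑ _j : J, (τ / Fintype.card J * n + 8 * τ) := sum_le_sum fun j _ => hD1 j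
        _ = Fintype.card J * (τ / Fintype.card J) * n + 8 * τ * Fintype.card J := by
            rw [sum_const, nsmul_eq_mul, card_univ]; ring
        _ ≤ τ * n + 8 * τ * Fintype.card J := by
            have : (Fintype.card J : ℝ) * (τ / Fintype.card J) ≤ τ := by
              rcases (Nat.cast_nonneg (Fintype.card J) : (0 : ℝ) ≤ Fintype.card J).eq_or_lt with h | h
              · rw [← h]; simp; exact hτ.le
              · rw [mul_div_cancel₀ _ h.ne']
            gcongr
        _ = _ := by ring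
    exact le_of_mul_le_mul_left e1 hτ
  obtain ⟨x, hx0, hxn⟩ : ∃ x ∈ N0, x ∉ B ∪ univ.biUnion D := by
    by_contra hcon
    push Not at hcon
    have hcard : (N0.card : ℝ) ≤ ((B ∪ univ.biUnion D).card : ℝ) := by
      exact_mod_cast card_le_card hcon
    have h' : ((B ∪ univ.biUnion D).card : ℝ) ≤ B.card + ∑ j, ((D j).card : ℝ) := by
      have e1 := card_union_le B (univ.biUnion D)
      have e2 : (univ.biUnion D).card ≤ ∑ j, (D j).card := card_biUnion_le
      have : (B ∪ univ.biUnion D).card ≤ B.card + ∑ j, (D j).card := by omega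
      exact_mod_cast this
    rw [← hn] at hcard
    linarith
  rw [mem_union, mem_biUnion] at hxn
  push Not at hxn
  obtain ⟨hxB, hxD⟩ := hxn
  exact ⟨x, hx0, fun j => hD2 j x hx0 (hxD j (mem_univ j)), hgood x hx0 hxB⟩

end Pool.Agent.H75.GS.SLE
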