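import Pool.Agent.H68.GS.STR
import Pool.Agent.H75.GS.Targets3

/-!
# SRE: the stage `r`
-/

set_option autoImplicit false

namespace Pool.Agent.H75.GS.SRE

open Finset Filter Pool.Agent.H6.NB Pool.Agent.H70.OQ Pool.Agent.H75.GS Pool.Agent.H68.GS

/-- The oracles for the samplers. -/
theorem exo_eq {κ : ℕ → ℕ} (V : ∀ i, Machine (κ i)) (K : ℕ)
    (prog : List Bool → List (List Bool) → DT) (c d : ℕ) (hd : d < c)
    (hV : ∀ i < c, ∀ x O, (x ∈ (V i).lang O ↔ acck K prog (inst (V i).c i x) O))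
    (O : List Bool → Bool) :
    exo {s | ∃ i < d, ∃ x, s = inst (V i).c i x} K prog O = ext V d O := by
  funext w
  match w with
  | [] => rfl
  | false :: w => rfl
  | true :: s =>
    unfold exo ext
    rw [decide_eq_decide]
    constructor
    · rintro ⟨⟨i, hi, x, rfl⟩, h⟩
      exact ⟨i, hi, x, rfl, (hV i (by omega) x O).2 h⟩
    · rintro ⟨i, hi, x, rfl, h⟩
      exact ⟨⟨i, hi, x, rfl⟩, (hV i (by omega) x O).1 h⟩

theorem sre (hSTE : T_STE) (hGRW : T_GRW) (hMSK : T_MSK) : T_SRE := by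
  classical
  intro κ V Q S g K prog c hp hV hyp
  obtain ⟨hQ, hS⟩ := hyp
  choose ci Ci εi hεi hQ using hQ
  obtain ⟨cm, Cm, ε, hε, hcm⟩ := common c ci Ci εi hεi
  have hS1 := fun j => (hS j).1
  choose cj hcj using hS1
  obtain ⟨c', hc'⟩ : ∃ c', ∀ j < c, cj j ≤ c' :=
    ⟨(range c).sup cj, fun j hj => Finset.le_sup (f := cj) (mem_range.2 hj)⟩
  obtain ⟨a, ha⟩ := hSTE K cm Cm c' (cm + 1) (2 ^ (cm + 1) + 4) c ε hε (by omega)
    (lt_of_lt_of_le Nat.lt_two_pow_self (Nat.pow_le_pow_right (by norm_num) (by omega))) prog hp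
  have hG : ∀ᶠ n : ℕ in atTop, ∀ j ∈ range c, ∀ m < n ^ 2 ^ (cm + 1),
      8 * (g j m + 0) ≤ n :=
    (Filter.eventually_all_finset _).2 fun j _ => hGRW (g j) (hS j).2 (2 ^ (cm + 1)) 0
  filter_upwards [tendsto_Ln.eventually ha, tendsto_Ln.eventually hG,
    tendsto_Ln.eventually (eventually_ge_atTop (c + 2)), eventually_ge_atTop (a + 3)]
    with r hn hG hnc hra A σ hA hσ hU
  set n := Ln r with hnn
  set H : ℕ := n ^ 2 ^ (cm + 1) with hH
  have hn1 : 1 ≤ n := by omega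
  have hH1 : 1 ≤ H := Nat.one_le_pow _ _ (by omega)
  have hloc := mix_loc (l := n) hp hA
  obtain ⟨u, σ', hu, h1, h2, h3, h4⟩ := hn (Fin c) (fun j => Q j) (by simp)
    (fun j x hx => by
      obtain ⟨hs1, hs2⟩ := hQ j x
      obtain ⟨e1, e2, e3⟩ := hcm j j.2
      rw [hx] at hs1 hs2
      refine ⟨fun i w hw => (hs1 i w hw).trans
        (add_le_add (Nat.pow_le_pow_right hn1 e1) e1), hs2.trans ?_⟩
      have e4 : (2 : ℝ) ^ ((1 / 2 - εi j) * (n : ℝ)) ≤ 2 ^ ((1 / 2 - ε) * (n : ℝ)) := by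
        refine Real.rpow_le_rpow_of_exponent_le (by norm_num) ?_
        refine mul_le_mul_of_nonneg_right (by linarith) (by positivity)
      have e5 : (Ci j : ℝ) ≤ Cm := by exact_mod_cast e2
      exact mul_le_mul e5 e4 (by positivity) (by positivity))
    (Fin c × Fin c × Fin c × Fin H) (fun p => cmp (S p.2.1 p.2.2.2) (inst (V p.1).c p.1))
    (fun p => {s | ∃ i < (p.2.2.1 : ℕ), ∃ x, s = inst (V i).c i x})
    (by
      simp only [Fintype.card_prod, Fintype.card_fin]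
      calc c * (c * (c * H)) ≤ n * (n * (n * H)) :=
            Nat.mul_le_mul (by omega) (Nat.mul_le_mul (by omega)
              (Nat.mul_le_mul (by omega) le_rfl))
        _ = n ^ (2 ^ (cm + 1) + 3) := by rw [hH]; ring
        _ ≤ n ^ (2 ^ (cm + 1) + 4) := Nat.pow_le_pow_right (by omega) (by omega))
    (fun p => by
      obtain ⟨hs1, hs2⟩ := hcj p.2.1 p.2.2.2
      refine ⟨fun i w hw => ?_, ?_⟩
      · refine (hs1 i w hw).trans ?_
        have e1 : (p.2.2.2 : ℕ) ^ cj p.2.1 ≤ H ^ c' :=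
          (Nat.pow_le_pow_left p.2.2.2.2.le _).trans (Nat.pow_le_pow_right hH1 (hc' _ p.2.1.2))
        exact add_le_add e1 (hc' _ p.2.1.2)
      · have e2 : (S p.2.1 p.2.2.2).alg.T ^ 8 ≤ (2 ^ g p.2.1 p.2.2.2) ^ 8 :=
          Nat.pow_le_pow_left hs2 8
        refine e2.trans ?_
        rw [← pow_mul]
        refine Nat.pow_le_pow_right (by norm_num) ?_
        have := hG p.2.1 (mem_range.2 p.2.1.2) p.2.2.2 p.2.2.2.2
        omega)
    (mix n K prog A) σ hloc (fun s O hs => mix_high hs O) hσ hU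
  have hstep : n ^ 2 ^ a + 1 ≤ Ln (r + 1) := Ln_step (by omega)
  refine ⟨mskA H u (mix n K prog A), σ', (hMSK _ hloc).1 H u, h2, h3,
    ⟨fun s hs => ?_, fun w hw => (h1 w hw).symm⟩, H, u, fun s O hs1 hs2 => ?_,
    fun A'' σ'' O hagr hB => ?_⟩
  · funext O
    refine propext ?_
    have e1 := (hMSK _ hloc).2.2 H u s O (by rw [hu]; nlinarith)
    rw [e1]
    exact (mix_low hs O).symm
  · unfold mskA
    split_ifs with hs
    · exact mix_high hs1 _
    · exact mix_high hs1 _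
  · obtain ⟨h5, h6⟩ := h4 A'' σ'' O (agr_mono hstep hagr) hB
    refine ⟨fun i hi => h5 ⟨i, hi⟩, fun i hi j hj d hd m hm => ?_⟩
    have h7 := h6 (⟨i, hi⟩, ⟨j, hj⟩, ⟨d, hd⟩, ⟨m, hm⟩)
    change (cmp (S j m) (inst (V i).c i)).hit
      (exo {s | ∃ i < d, ∃ x, s = inst (V i).c i x} K prog O) _ ≤ _ at h7
    rw [exo_eq V K prog c d hd hV O] at h7
    refine (cmp_hit (S j m) (inst (V i).c i) (ext V d O) _ _ ?_).trans (h7.trans ?_)
    · rintro y ⟨hy1, hy2, hy3⟩
      refine ⟨hy2, ?_⟩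
      rw [mix_high hy1, mix_high hy1]
      exact hy3
    · refine one_div_le_one_div_of_le (by positivity) (pow_le_pow_right₀ (by norm_num) ?_)
      have e1 := hG j (mem_range.2 hj) m hm
      have e2 : 8 * (r + 1) ≤ n := Ln_big (by omega)
      omega

end Pool.Agent.H75.GS.SRE
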