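import Pool.Agent.H75.GS.All
import Pool.Agent.H75.GS.STE
import Pool.Agent.H75.GS.FIE
import Pool.Agent.H75.GS.SLE
import Pool.Agent.H75.GS.CHT
import Pool.Agent.H75.GS.DUE
import Pool.Agent.H75.GS.SRE
import Pool.Agent.H97.GS.ERE

/-!
# Samplers which may use the polynomial hierarchy: assembly
-/

set_option autoImplicit false

namespace Pool.Agent.H75.GS

open Pool.Agent.H70.OQ

theorem a_SLE : T_SLE :=
  SLE.pf_SLE Pool.Agent.H87.GS.pf_BBH Pool.Agent.H11.GS.pf_HTS Pool.Agent.H89.GS.pf_MGS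

theorem a_CHT : T_CHT :=
  CHT.pf_CHT a_WRF a_WRT a_LKX Pool.Agent.H89.GS.pf_MSK a_SYX pf_MEG pf_EXG

theorem a_STE : T_STE := STE.ste (Pool.Agent.H69.GS.pf_PRX pf_PMG) Pool.Agent.H89.GS.pf_MSK
  Pool.Agent.H97.GS.pf_BUX a_FMX a_WRF a_CHS a_GEX a_FID a_CLE
  (Pool.Agent.H78.GS.bsc pf_CLG pf_CUB) Pool.Agent.H85.GS.pf_FEW Pool.Agent.H69.GS.pf_HQM
  Pool.Agent.H1.GS.pf_QMS a_CHT a_SLE pf_LAK pf_BLG Pool.Agent.H6.NB.pf_PCG pf_CLH pf_NST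
  Pool.Agent.H6.NB.pf_COD Pool.Agent.H6.NB.pf_FIS Pool.Agent.H6.NB.pf_NUM
  Pool.Agent.H6.NB.pf_L12

theorem a_FIE : Main2 := FIE.fie Pool.Agent.H1.GS.pf_WLM (Pool.Agent.H13.GS.pf_UNX pf_UNG)
  (SRE.sre a_STE Pool.Agent.H62.GS.pf_GRW Pool.Agent.H89.GS.pf_MSK) (DUE.pf_DUE pf_LAK)
  Pool.Agent.H71.GS.pf_DGL Pool.Agent.H68.GS.lmx
  (Pool.Agent.H97.GS.pf_ERE pf_YEG Pool.Agent.H6.NB.pf_COD) pf_BLG

end Pool.Agent.H75.GS
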