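import Pool.Agent.H75.GS.Targets2
import Pool.Agent.H70.OQ.SGG
import Pool.Agent.H12.OQ.LKG

/-!
gsq_modules, lemmas for the stage
-/

set_option autoImplicit false

namespace Pool.Agent.H75.GS.STA

open Finset Filter Pool.Agent.H6.NB Pool.Agent.H70.OQ Pool.Agent.H75.GS

/-- The state depends only on the values at the queries. -/
theorem state_congr (Q : QAlg) (O O' : List Bool → Bool)
    (h : ∀ i w, Q.query i = some w → O w = O' w) (t : ℕ) : Q.state O t = Q.state O' t := by
  have hp : ∀ i, Q.phase O i = Q.phase O' i := by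
    intro i
    unfold QAlg.phase
    cases hq : Q.query i with
    | none => rfl
    | some w => simp only [h i w hq]
  induction t with
  | zero => rfl
  | succ t ih =>
    simp only [QAlg.state, ih, hp]

theorem hit_congr (S : Sampler) (O O' : List Bool → Bool)
    (h : ∀ i w, S.alg.query i = some w → O w = O' w) (E : Set (List Bool)) :
    S.hit O E = S.hit O' E := by
  unfold Sampler.hit
  rw [state_congr S.alg O O' h]

theorem pst_eq (n : ℕ) (x : Xn n) (y : Ys n 0) :
    pst n x y = false :: nstr n 1 ((x, y) : Nn n 1) := rfl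

theorem pst_len (n : ℕ) (x : Xn n) (y : Ys n 0) : (pst n x y).length = 3 * n + 1 := by
  unfold pst
  simp only [List.length_cons, List.length_append, List.length_ofFn]
  ring

theorem pst_inj {n : ℕ} {x x' : Xn n} {y y' : Ys n 0} (h : pst n x y = pst n x' y') :
    x = x' ∧ y = y' := by
  unfold pst at h
  have h1 := (List.cons.inj h).2
  have h2 := List.append_inj h1 (by simp)
  exact ⟨List.ofFn_injective h2.1, List.ofFn_injective h2.2⟩

/-- The value of the seed at a position of the table. -/
theorem sdg_pst (hCLH : T_CLH) {n a : ℕ} {σ₀ : List Bool → Bool} {T : Nn n 1 → Bool}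
    {κ : Om n a → Bool} {P : Blk (fun s : Om n a => ns s.1) fun s => qs s.1} (x : Xn n)
    (y : Ys n 0) : sdg 1 n a σ₀ T κ P (pst n x y) = T (x, y) := by
  rw [pst_eq]
  unfold sdg
  rw [(hCLH 1 n a σ₀).1]
  rfl

/-- The seed of the stage has unique witnesses. -/
theorem uniq_sd (hCLH : T_CLH) (hNST : T_NST) {n a : ℕ} {σ₀ : List Bool → Bool} (h0 : Uniq σ₀)
    {p : Wn n} {x : Xn n} {κ : Om n (2 ^ a) → Bool}
    {P : Blk (fun s : Om n (2 ^ a) => ns s.1) fun s => qs s.1} :
    Uniq (sdg 1 n (2 ^ a) σ₀ (UU n p x) κ P) := by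
  intro u v v' hv hv' h1 h2
  by_cases hn : u.length = n
  · obtain ⟨x', rfl⟩ := SGG.exists_ofFn hn
    have e : 2 * (List.ofFn x').length = 2 ^ (0 + 1) * n := by simp
    obtain ⟨y, rfl⟩ := SGG.exists_ofFn (hv.trans e)
    obtain ⟨y', rfl⟩ := SGG.exists_ofFn (hv'.trans e)
    have g1 : sdg 1 n (2 ^ a) σ₀ (UU n p x) κ P (pst n x' y) = true := h1
    have g2 : sdg 1 n (2 ^ a) σ₀ (UU n p x) κ P (pst n x' y') = true := h2
    rw [sdg_pst hCLH] at g1 g2
    have f : ∀ y : Ys n 0, UU n p x (x', y) = true → y = p.1 x' := by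
      intro y hy
      unfold UU tU tb at hy
      simp only [Bool.and_eq_true, decide_eq_true_eq] at hy
      exact hy.2
    rw [f y g1, f y' g2]
  · have f : ∀ w : List Bool, w.length = 2 * u.length →
        sdg 1 n (2 ^ a) σ₀ (UU n p x) κ P (false :: (u ++ w)) = σ₀ (false :: (u ++ w)) := by
      intro w hw
      refine SGG.sd_other hCLH hNST hn ?_
      rw [List.length_append, hw]
      ring
    rw [f v hv] at h1
    rw [f v' hv'] at h2
    exact h0 u v v' hv hv' h1 h2

/-- The value of the oracle at a position of the table. -/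
theorem bld_pst (hCLH : T_CLH) {A : List Bool → (List Bool → Bool) → Prop} {n a : ℕ}
    {σ₀ O : List Bool → Bool} {T : Nn n 1 → Bool} {κ : Om n a → Bool}
    {P : Blk (fun s : Om n a => ns s.1) fun s => qs s.1} (h : Bldg A (sdg 1 n a σ₀ T κ P) O)
    (x : Xn n) (y : Ys n 0) : O (pst n x y) = T (x, y) := by
  refine Eq.trans ?_ (sdg_pst hCLH (σ₀ := σ₀) (κ := κ) (P := P) x y)
  exact Pool.Agent.H12.OQ.LKG.Bld_not_key h fun s => Pool.Agent.H12.OQ.LKG.bas_ne_key _ s

/-- The members of length `n`. -/
theorem mem_wlang (hCLH : T_CLH) {A : List Bool → (List Bool → Bool) → Prop} {n a : ℕ}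
    {σ₀ O : List Bool → Bool} {p : Wn n} {x : Xn n} {κ : Om n a → Bool}
    {P : Blk (fun s : Om n a => ns s.1) fun s => qs s.1}
    (h : Bldg A (sdg 1 n a σ₀ (UU n p x) κ P) O) (x' : Xn n) :
    List.ofFn x' ∈ wlang O ↔ (p.2 x' = true ∨ x' = x) := by
  have e : 2 * (List.ofFn x').length = 2 ^ (0 + 1) * n := by simp
  have f : ∀ y : Ys n 0, (UU n p x (x', y) = true ↔ (p.2 x' = true ∨ x' = x) ∧ y = p.1 x') := by
    intro y
    unfold UU tU tb
    simp only [Bool.and_eq_true, Bool.or_eq_true, decide_eq_true_eq]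
    exact Iff.rfl
  constructor
  · rintro ⟨v, hv, hO⟩
    obtain ⟨y, rfl⟩ := SGG.exists_ofFn (hv.trans e)
    have g : O (pst n x' y) = true := hO
    rw [bld_pst hCLH h] at g
    exact ((f y).1 g).1
  · intro hx
    refine ⟨List.ofFn (p.1 x'), by rw [List.length_ofFn]; exact e.symm, ?_⟩
    change O (pst n x' (p.1 x')) = true
    rw [bld_pst hCLH h]
    exact (f _).2 ⟨hx, rfl⟩

/-- Membership depends only on the strings of one length. -/
theorem wlang_congr {O O' : List Bool → Bool} {u : List Bool}
    (h : ∀ w : List Bool, w.length = 3 * u.length + 1 → O w = O' w) : u ∈ wlang O ↔ u ∈ wlang O' := by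
  unfold wlang
  simp only [Set.mem_ofPred_eq]
  refine exists_congr fun v => and_congr_right fun hv => ?_
  rw [h]
  simp only [List.length_cons, List.length_append, hv]
  ring

/-- The magnitude of the changed queries, if only one string is changed. -/
theorem prob_congr' (hPCG : T_PCG) {Q : QAlg} {O O' : List Bool → Bool} {L N : ℕ} (hQ : Q.Short L)
    (hL : L ≤ N) (h : ∀ w : List Bool, w.length ≤ N → O w = O' w) : Q.prob O = Q.prob O' :=
  hPCG Q O O' fun i w hw => h w ((hQ i w hw).trans hL)

/-- Counting pairs. -/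
theorem card_pairs {α β : Type} [Fintype α] [Fintype β] (G : α × β → Prop) [DecidablePred G]
    [∀ b, DecidablePred fun a => G (a, b)] (c : ℝ)
    (h : ∀ b, ((univ.filter fun a => G (a, b)).card : ℝ) ≤ c) :
    ((univ.filter fun p : α × β => G p).card : ℝ) ≤ Fintype.card β * c := by
  classical
  have e : (univ.filter fun p : α × β => G p).card =
      ∑ b : β, (univ.filter fun a => G (a, b)).card := by
    rw [Finset.card_filter, Fintype.sum_prod_type_right]
    refine Finset.sum_congr rfl fun b _ => ?_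
    rw [Finset.card_filter]
  rw [e]
  push_cast
  refine (Finset.sum_le_sum fun b _ => h b).trans ?_
  rw [Finset.sum_const, nsmul_eq_mul, Finset.card_univ]

end Pool.Agent.H75.GS.STA
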