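import Pool.Agent.H75.GS.Stmt

/-!
# Samplers which may use the polynomial hierarchy: definitions
-/

set_option autoImplicit false

namespace Pool.Agent.H75.GS

open Pool.Agent.H6.NB Pool.Agent.H70.OQ

open Classical in
/-- The oracle `O` together with the languages of the first `d` machines: the answer to the query `0 w` is
`O w`; the answer to the query `1 s` is yes iff `s` is the code `inst (V i).c i x` of a machine `V i`,
`i < d`, and an input `x` which `V i` accepts relative to `O`. -/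
noncomputable def ext {κ : ℕ → ℕ} (V : ∀ i, Machine (κ i)) (d : ℕ) (O : List Bool → Bool) :
    List Bool → Bool
  | [] => false
  | false :: w => O w
  | true :: s => decide (∃ i < d, ∃ x, s = inst (V i).c i x ∧ x ∈ (V i).lang O)

/-- The statement of the theorem. -/
def Main2 : Prop :=
  (∃ F : Machine 1, ∀ O, F.lang O = wlang O) ∧
  ∀ (κ : ℕ → ℕ) (V : ∀ i, Machine (κ i)) (Q : ℕ → List Bool → QAlg) (S : ℕ → ℕ → Sampler)
    (g : ℕ → ℕ → ℕ),
    (∀ i, ∃ (c C : ℕ) (ε : ℝ), 0 < ε ∧ ∀ x, (Q i x).Short (x.length ^ c + c) ∧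
      ((Q i x).T : ℝ) ≤ C * 2 ^ ((1 / 2 - ε) * x.length)) →
    (∀ j, (∃ c, ∀ m, (S j m).alg.Short (m ^ c + c) ∧ (S j m).alg.T ≤ 2 ^ g j m) ∧
      ∀ a : ℕ, ∀ᶠ m in Filter.atTop, g j m ^ a ≤ m) →
    ∃ O : List Bool → Bool, Uniq O ∧
      (∀ i, ∀ᶠ r in Filter.atTop, ∃ x, x.length = 2 ^ 2 ^ 2 ^ r ∧ ¬ Correct (Q i x) O (wlang O) x) ∧
      ∀ i j d, ∀ᶠ m in Filter.atTop,
        (S j m).hit (ext V d O) {x | x ∈ Err (V i) i O ∧ m ≤ x.length} ≤ 1 / 2 ^ g j m

end Pool.Agent.H75.GS
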